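import Mathlib

set_option autoImplicit false

open Complex Metric Set Filter Topology

namespace Pool.Agent.R254

/-- The `n`-th Taylor coefficient at the origin. -/
noncomputable def tc (f : ℂ → ℂ) (n : ℕ) : ℂ := iteratedDeriv n f 0 / (n.factorial : ℂ)

lemma tc_congr {f g : ℂ → ℂ} (h : f =ᶠ[𝓝 0] g) (n : ℕ) : tc f n = tc g n := by
  unfold tc; rw [h.iteratedDeriv_eq n]

lemma tc_zero (f : ℂ → ℂ) : tc f 0 = f 0 := by simp [tc]

lemma cdiff {f : ℂ → ℂ} (hf : DifferentiableOn ℂ f (ball 0 1)) {n : WithTop ℕ∞} : ContDiffAt ℂ n f 0 :=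
  (hf.analyticAt (ball_mem_nhds _ one_pos)).contDiffAt

lemma tc_mul {f g : ℂ → ℂ} (hf : DifferentiableOn ℂ f (ball 0 1))
    (hg : DifferentiableOn ℂ g (ball 0 1)) (n : ℕ) :
    tc (fun z => f z * g z) n = ∑ i ∈ Finset.range (n + 1), tc f i * tc g (n - i) := by
  unfold tc
  have h := iteratedDeriv_mul (n := n) (x := (0:ℂ)) (f := f) (g := g) (cdiff hf) (cdiff hg)
  have e : (fun z => f z * g z) = f * g := rfl
  rw [e, h, Finset.sum_div]
  apply Finset.sum_congr rfl
  intro i hi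
  have hi' : i ≤ n := by simpa [Nat.lt_succ_iff] using hi
  have h1 : (n.choose i : ℂ) * (i.factorial : ℂ) * ((n - i).factorial : ℂ) = (n.factorial : ℂ) := by
    exact_mod_cast Nat.choose_mul_factorial_mul_factorial hi'
  have h2 : (n.factorial : ℂ) ≠ 0 := by exact_mod_cast n.factorial_ne_zero
  have h3 : (i.factorial : ℂ) ≠ 0 := by exact_mod_cast i.factorial_ne_zero
  have h4 : ((n - i).factorial : ℂ) ≠ 0 := by exact_mod_cast (n - i).factorial_ne_zero
  rw [← h1]
  have h5 : (n.choose i : ℂ) ≠ 0 := by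
    exact_mod_cast (Nat.choose_pos hi').ne'
  field_simp

lemma tc_add {f g : ℂ → ℂ} (hf : DifferentiableOn ℂ f (ball 0 1))
    (hg : DifferentiableOn ℂ g (ball 0 1)) (n : ℕ) :
    tc (fun z => f z + g z) n = tc f n + tc g n := by
  unfold tc
  have h := iteratedDeriv_add (n := n) (x := (0:ℂ)) (f := f) (g := g) (cdiff hf) (cdiff hg)
  have e : (fun z => f z + g z) = f + g := rfl
  rw [e, h]; ring

lemma tc_const_mul {f : ℂ → ℂ} (c : ℂ) (n : ℕ) :
    tc (fun z => c * f z) n = c * tc f n := by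
  unfold tc
  rw [iteratedDeriv_const_mul_field]
  ring

lemma tc_id (n : ℕ) : tc (fun z => z) n = if n = 1 then 1 else 0 := by
  unfold tc
  rw [iteratedDeriv_fun_id_zero]
  split_ifs with h
  · subst h; simp
  · simp

lemma tc_const (c : ℂ) (n : ℕ) : tc (fun _ => c) n = if n = 0 then c else 0 := by
  unfold tc
  rw [iteratedDeriv_const]
  split_ifs with h
  · subst h; simp
  · simp

lemma tc_deriv {f f' : ℂ → ℂ} (h : ∀ z ∈ ball (0:ℂ) 1, HasDerivAt f (f' z) z) (n : ℕ) :
    tc f' n = ((n : ℂ) + 1) * tc f (n + 1) := by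
  unfold tc
  have e : f' =ᶠ[𝓝 0] deriv f := by
    filter_upwards [ball_mem_nhds (0:ℂ) one_pos] with z hz
    exact (h z hz).deriv.symm
  rw [e.iteratedDeriv_eq n, iteratedDeriv_succ', Nat.factorial_succ]
  push_cast
  have h2 : (n.factorial : ℂ) ≠ 0 := by exact_mod_cast n.factorial_ne_zero
  have h3 : (n : ℂ) + 1 ≠ 0 := by exact_mod_cast (Nat.succ_ne_zero n)
  field_simp

lemma tc_hasSum {g : ℂ → ℂ} (hg : DifferentiableOn ℂ g (ball 0 1)) {z : ℂ} (hz : ‖z‖ < 1) :
    HasSum (fun n => tc g n * z ^ n) (g z) := by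
  have h := Complex.hasSum_taylorSeries_on_ball (f := g) (c := 0) (r := 1) (by simpa using hg) (z := z) (by simpa using hz)
  have e : (fun n => tc g n * z ^ n) = (fun n : ℕ ↦ ((n.factorial : ℂ))⁻¹ • (z - 0) ^ n • iteratedDeriv n g 0) := by
    funext n
    simp [tc, div_eq_mul_inv]; ring
  rw [e]; exact h

/-- Key monotonicity inequality (Noshiro and Warschawski), injectivity form. -/
theorem noshiro {F F' : ℂ → ℂ} {H : Set ℂ} (hH : Convex ℝ H)
    (hF : ∀ w ∈ H, HasDerivAt F (F' w) w) (hre : ∀ w ∈ H, 0 < (F' w).re)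
    {w₁ w₂ : ℂ} (h₁ : w₁ ∈ H) (h₂ : w₂ ∈ H) (heq : F w₁ = F w₂) : w₁ = w₂ := by
  by_contra hne
  set d := w₁ - w₂ with hd
  have hd0 : d ≠ 0 := sub_ne_zero.mpr hne
  let g : ℝ → ℝ := fun s => (F (w₂ + s * d) * (starRingEnd ℂ) d).re
  have hmem : ∀ s ∈ Icc (0:ℝ) 1, w₂ + s * d ∈ H := by
    intro s hs
    have := hH h₂ h₁ (a := 1 - s) (b := s) (by linarith [hs.2]) hs.1 (by ring)
    have e : (1 - s) • w₂ + s • w₁ = w₂ + s * d := by
      rw [hd]; simp only [Complex.real_smul]; push_cast; ring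
    rwa [e] at this
  have hderiv : ∀ s ∈ Icc (0:ℝ) 1, HasDerivAt g ((F' (w₂ + s * d) * d * (starRingEnd ℂ) d).re) s := by
    intro s hs
    have h1 : HasDerivAt F (F' (w₂ + s * d)) (w₂ + s * d) := hF _ (hmem s hs)
    have h2 : HasDerivAt (fun s : ℝ => w₂ + (s : ℂ) * d) d s := by
      have := ((Complex.ofRealCLM.hasDerivAt (x := s)).mul_const d).const_add w₂
      simpa using this
    have h3 : HasDerivAt (fun s : ℝ => F (w₂ + (s : ℂ) * d)) (F' (w₂ + s * d) * d) s := by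
      have := h1.comp_of_eq s h2 rfl
      simpa [Function.comp_def] using this
    have h4 := h3.mul_const ((starRingEnd ℂ) d)
    have h5 := (Complex.reCLM.hasFDerivAt.comp_hasDerivAt s h4)
    simpa [Function.comp_def, g] using h5
  have hmono : StrictMonoOn g (Icc 0 1) := by
    apply strictMonoOn_of_deriv_pos (convex_Icc 0 1)
    · intro s hs
      exact (hderiv s hs).continuousAt.continuousWithinAt
    · intro s hs
      rw [interior_Icc] at hs
      have hs' : s ∈ Icc (0:ℝ) 1 := ⟨hs.1.le, hs.2.le⟩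
      rw [(hderiv s hs').deriv]
      have e : F' (w₂ + s * d) * d * (starRingEnd ℂ) d = F' (w₂ + s * d) * ((normSq d : ℝ) : ℂ) := by
        rw [mul_assoc, Complex.mul_conj]
      rw [e, Complex.re_mul_ofReal]
      exact mul_pos (hre _ (hmem s hs')) (Complex.normSq_pos.mpr hd0)
  have := hmono (left_mem_Icc.mpr zero_le_one) (right_mem_Icc.mpr zero_le_one) zero_lt_one
  have e1 : g 1 = (F w₁ * (starRingEnd ℂ) d).re := by simp [g, hd]
  have e0 : g 0 = (F w₂ * (starRingEnd ℂ) d).re := by simp [g]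
  rw [e1, e0, heq] at this
  exact lt_irrefl _ this

end Pool.Agent.R254
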