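import Mathlib
import Pool.Agent.R254.Jet

set_option autoImplicit false

open Complex Metric Set Filter Topology

namespace Pool.Agent.R254

lemma tc_pow (k n : ℕ) : tc (fun z => z ^ k) n = if n = k then 1 else 0 := by
  unfold tc
  rw [iteratedDeriv_fun_pow_zero]
  by_cases h : n = k
  · subst h; simp [Nat.factorial_ne_zero]
  · simp [h]

lemma diff_poly (N : ℕ) (c : ℕ → ℂ) : DifferentiableOn ℂ (fun z : ℂ => ∑ i ∈ Finset.range N, c i * z ^ i) (ball 0 1) := by
  apply Differentiable.differentiableOn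
  fun_prop

lemma tc_poly (N : ℕ) (c : ℕ → ℂ) (n : ℕ) :
    tc (fun z : ℂ => ∑ i ∈ Finset.range N, c i * z ^ i) n = if n < N then c n else 0 := by
  induction N with
  | zero => simp [tc_const]
  | succ N ih =>
    have e : (fun z : ℂ => ∑ i ∈ Finset.range (N+1), c i * z ^ i) =
        fun z : ℂ => (∑ i ∈ Finset.range N, c i * z ^ i) + c N * z ^ N := by
      funext z; rw [Finset.sum_range_succ]
    rw [e, tc_add (diff_poly N c) (Differentiable.differentiableOn (by fun_prop)), ih, tc_const_mul, tc_pow]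
    by_cases h : n = N
    · subst h; simp
    · by_cases h2 : n < N
      · simp [h, h2, Nat.lt_succ_of_lt h2]
      · have h3 : ¬ n < N + 1 := by omega
        simp [h, h2, h3]

/-- Reading off Taylor coefficients from a finite expansion with remainder. -/
theorem tc_eq_of_jet {N : ℕ} {c : ℕ → ℂ} {f R : ℂ → ℂ} (hR : DifferentiableOn ℂ R (ball 0 1))
    (hf : ∀ z ∈ ball (0:ℂ) 1, f z = (∑ i ∈ Finset.range N, c i * z ^ i) + z ^ N * R z)
    {n : ℕ} (hn : n < N) : tc f n = c n := by
  have e : f =ᶠ[𝓝 0] fun z => (∑ i ∈ Finset.range N, c i * z ^ i) + z ^ N * R z := by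
    filter_upwards [ball_mem_nhds (0:ℂ) one_pos] with z hz using hf z hz
  have hp : DifferentiableOn ℂ (fun z : ℂ => z ^ N) (ball 0 1) :=
    Differentiable.differentiableOn (by fun_prop)
  have hpR : DifferentiableOn ℂ (fun z : ℂ => z ^ N * R z) (ball 0 1) := hp.mul hR
  rw [tc_congr e, tc_add (diff_poly N c) hpR, tc_poly, tc_mul hp hR, if_pos hn]
  rw [Finset.sum_eq_zero, add_zero]
  intro i hi
  have : i ≠ N := by
    have := Finset.mem_range.mp hi
    omega
  rw [tc_pow, if_neg this, zero_mul]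

end Pool.Agent.R254
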