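import Mathlib
import Pool.Agent.R254.Jet

set_option autoImplicit false

open Complex Metric Set Filter Topology

namespace Pool.Agent.R254

/-- A zero free holomorphic function on the disk with value `1` at the origin has an
`m`-th root of its reciprocal. -/
theorem exists_root {q : ℂ → ℂ} (hq : DifferentiableOn ℂ q (ball 0 1)) (q0 : q 0 = 1)
    (hne : ∀ z ∈ ball (0:ℂ) 1, q z ≠ 0) {m : ℕ} (hm : m ≠ 0) :
    ∃ Φ : ℂ → ℂ, DifferentiableOn ℂ Φ (ball 0 1) ∧ Φ 0 = 1 ∧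
      (∀ z ∈ ball (0:ℂ) 1, Φ z ^ m * q z = 1) ∧
      (∀ z ∈ ball (0:ℂ) 1, HasDerivAt Φ (-(1 / (m:ℂ)) * (deriv q z / q z) * Φ z) z) := by
  have hm' : (m : ℂ) ≠ 0 := by exact_mod_cast hm
  have hd : DifferentiableOn ℂ (fun z => deriv q z / q z) (ball 0 1) :=
    (hq.deriv isOpen_ball).div hq hne
  obtain ⟨L, L0, hL⟩ := hd.isExactOn_ball.with_val_at 0 0
  have hqd : ∀ z ∈ ball (0:ℂ) 1, HasDerivAt q (deriv q z) z := fun z hz =>
    (hq.differentiableAt (isOpen_ball.mem_nhds hz)).hasDerivAt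
  -- `exp (-L) * q` is constant
  have hconst : ∀ z ∈ ball (0:ℂ) 1, Complex.exp (-(L z)) * q z = 1 := by
    have hder : ∀ z ∈ ball (0:ℂ) 1, HasDerivAt (fun z => Complex.exp (-(L z)) * q z) 0 z := by
      intro z hz
      have h1 := ((hL z hz).neg.cexp).mul (hqd z hz)
      have h2 : Complex.exp (-L z) * -(deriv q z / q z) * q z + Complex.exp (-L z) * deriv q z = 0 := by
        have := hne z hz
        field_simp
        ring
      rw [← h2]
      exact h1
    intro z hz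
    have hdiff : DifferentiableOn ℂ (fun z => Complex.exp (-(L z)) * q z) (ball 0 1) :=
      fun z hz => (hder z hz).differentiableAt.differentiableWithinAt
    have h0 : (0:ℂ) ∈ ball (0:ℂ) 1 := mem_ball_self one_pos
    have := isOpen_ball.is_const_of_deriv_eq_zero (s := ball (0:ℂ) 1)
      ((convex_ball (0:ℂ) 1).isPreconnected) hdiff (fun z hz => (hder z hz).deriv) hz h0
    rw [this]; simp [L0, q0]
  refine ⟨fun z => Complex.exp (-(1/(m:ℂ)) * L z), ?_, ?_, ?_, ?_⟩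
  · intro z hz
    exact (((hL z hz).const_mul (-(1/(m:ℂ)))).cexp).differentiableAt.differentiableWithinAt
  · simp [L0]
  · intro z hz
    rw [← Complex.exp_nat_mul]
    have : (m:ℂ) * (-(1/(m:ℂ)) * L z) = - L z := by field_simp
    rw [this]; exact hconst z hz
  · intro z hz
    have h1 := ((hL z hz).const_mul (-(1/(m:ℂ)))).cexp
    have h2 : -(1 / (m:ℂ)) * (deriv q z / q z) * Complex.exp (-(1/(m:ℂ)) * L z) =
        Complex.exp (-(1/(m:ℂ)) * L z) * (-(1/(m:ℂ)) * (deriv q z / q z)) := by ring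
    simp only [h2]
    exact h1

/-- Passing to the exterior of the disk with an `m`-fold root transform. -/
theorem sigma_of_root {h q Φ : ℂ → ℂ} {m : ℕ} (hm : m ≠ 0)
    (hhq : ∀ z ∈ ball (0:ℂ) 1, h z = z * q z)
    (hinj : InjOn h (ball 0 1))
    (hΦ : DifferentiableOn ℂ Φ (ball 0 1)) (hΦ0 : Φ 0 = 1)
    (hroot : ∀ z ∈ ball (0:ℂ) 1, Φ z ^ m * q z = 1) :
    DifferentiableOn ℂ (fun z => z * Φ ((z⁻¹)^m)) {z : ℂ | 1 < ‖z‖} ∧
    InjOn (fun z => z * Φ ((z⁻¹)^m)) {z : ℂ | 1 < ‖z‖} ∧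
    (∀ z : ℂ, 1 < ‖z‖ → HasSum (fun k : ℕ =>
      (if m ∣ k + 1 then tc Φ ((k+1)/m) else 0) * (z⁻¹)^k) (z * Φ ((z⁻¹)^m) - z)) := by
  have hin : ∀ z : ℂ, 1 < ‖z‖ → (z⁻¹)^m ∈ ball (0:ℂ) 1 := by
    intro z hz
    rw [mem_ball_zero_iff, norm_pow, norm_inv]
    exact pow_lt_one₀ (by positivity) (inv_lt_one_of_one_lt₀ hz) hm
  have hne : ∀ z : ℂ, 1 < ‖z‖ → z ≠ 0 := by
    rintro z hz rfl
    simp at hz; linarith
  have hΦne : ∀ z ∈ ball (0:ℂ) 1, Φ z ≠ 0 := by
    intro z hz h0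
    have := hroot z hz
    rw [h0, zero_pow hm] at this
    simp at this
  refine ⟨?_, ?_, ?_⟩
  · intro z hz
    have h1 : DifferentiableAt ℂ Φ ((z⁻¹)^m) :=
      hΦ.differentiableAt (isOpen_ball.mem_nhds (hin z hz))
    have h2 : DifferentiableAt ℂ (fun z : ℂ => (z⁻¹)^m) z :=
      (differentiableAt_inv (hne z hz)).pow m
    exact (differentiableAt_id.mul (h1.comp z h2)).differentiableWithinAt
  · intro z₁ h₁ z₂ h₂ heq
    simp only at heq
    have key : ∀ z : ℂ, 1 < ‖z‖ → (z * Φ ((z⁻¹)^m))^m * h ((z⁻¹)^m) = 1 := by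
      intro z hz
      rw [hhq _ (hin z hz)]
      have hz0 : z^m ≠ 0 := pow_ne_zero _ (hne z hz)
      have := hroot _ (hin z hz)
      calc (z * Φ ((z⁻¹)^m))^m * ((z⁻¹)^m * q ((z⁻¹)^m))
          = (z^m * (z⁻¹)^m) * (Φ ((z⁻¹)^m) ^ m * q ((z⁻¹)^m)) := by rw [mul_pow]; ring
        _ = 1 := by rw [this, ← mul_pow, mul_inv_cancel₀ (hne z hz)]; simp
    have k1 := key z₁ h₁
    have k2 := key z₂ h₂
    rw [heq] at k1
    have hh : h ((z₁⁻¹)^m) = h ((z₂⁻¹)^m) := by
      have hnz : (z₂ * Φ ((z₂⁻¹)^m))^m ≠ 0 := by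
        intro h0; rw [h0] at k2; simp at k2
      exact mul_left_cancel₀ hnz (k1.trans k2.symm)
    have hz := hinj (hin z₁ h₁) (hin z₂ h₂) hh
    rw [hz] at heq
    exact mul_right_cancel₀ (hΦne _ (hin z₂ h₂)) heq
  · intro z hz
    have hs := tc_hasSum hΦ (z := (z⁻¹)^m) (by simpa using hin z hz)
    rw [hasSum_nat_add_iff' 1 |>.symm] at hs
    simp only [Finset.range_one, Finset.sum_singleton, pow_zero, mul_one, tc_zero, hΦ0] at hs
    have hs2 := hs.mul_left z
    have hinj2 : Function.Injective (fun k : ℕ => m * (k+1) - 1) := by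
      intro a b hab
      simp only at hab
      have h1 : 1 ≤ m := Nat.one_le_iff_ne_zero.mpr hm
      have ha : 1 ≤ m * (a+1) := Nat.mul_pos h1 (Nat.succ_pos a)
      have hb : 1 ≤ m * (b+1) := Nat.mul_pos h1 (Nat.succ_pos b)
      have : m * (a+1) = m * (b+1) := by omega
      have := Nat.eq_of_mul_eq_mul_left h1 this
      omega
    have hval : z * (Φ ((z⁻¹)^m) - 1) = z * Φ ((z⁻¹)^m) - z := by ring
    rw [hval] at hs2
    rw [← hinj2.hasSum_iff]
    · have hfe : ∀ f g : ℕ → ℂ, (∀ k, f k = g k) → ∀ a : ℂ, HasSum g a → HasSum f a := by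
        intro f g hfg a ha
        have : f = g := funext hfg
        rw [this]; exact ha
      refine hfe _ _ ?_ _ hs2
      intro k
      have h1 : 1 ≤ m := Nat.one_le_iff_ne_zero.mpr hm
      have ha : 1 ≤ m * (k+1) := Nat.mul_pos h1 (Nat.succ_pos k)
      have e1 : m * (k+1) - 1 + 1 = m * (k+1) := by omega
      simp only [Function.comp, e1, dvd_mul_right, if_true]
      rw [Nat.mul_div_cancel_left _ h1]
      have e2 : z * (tc Φ (k+1) * ((z⁻¹)^m)^(k+1)) = tc Φ (k+1) * (z * (z⁻¹)^(m*(k+1))) := by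
        rw [← pow_mul]; ring
      rw [e2]
      congr 1
      have e3 : (z⁻¹)^(m*(k+1)) = (z⁻¹)^(m*(k+1) - 1) * z⁻¹ := by
        rw [← pow_succ, e1]
      rw [e3]
      have := hne z hz
      field_simp
    · intro k hk
      have : ¬ m ∣ k + 1 := by
        rintro ⟨c, hc⟩
        apply hk
        have hc0 : c ≠ 0 := by rintro rfl; simp at hc
        refine ⟨c - 1, ?_⟩
        have : c - 1 + 1 = c := by omega
        simp only [this]
        omega
      simp [this]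

end Pool.Agent.R254
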