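import Mathlib
import Pool.Agent.R254.Jet
import Pool.Agent.R254.JetPoly
import Pool.Agent.R254.SigmaRoot

set_option autoImplicit false

open Complex Metric Set Filter Topology

namespace Pool.Agent.R254

lemma tc_shift {q : ℂ → ℂ} (hq : DifferentiableOn ℂ q (ball 0 1)) (n : ℕ) :
    tc (fun z => z * q z) (n + 1) = tc q n := by
  rw [tc_mul (Differentiable.differentiableOn (by fun_prop)) hq, Finset.sum_eq_single 1]
  · simp [tc_id]
  · intro b _ hb; simp [tc_id, hb]
  · intro h; simp at h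

/-- Dividing a univalent function by `z`. -/
theorem exists_quot {h h' : ℂ → ℂ} (h0 : h 0 = 0) (hd0 : h' 0 = 1)
    (hder : ∀ z ∈ ball (0:ℂ) 1, HasDerivAt h (h' z) z) (hinj : InjOn h (ball 0 1)) :
    ∃ q : ℂ → ℂ, DifferentiableOn ℂ q (ball 0 1) ∧ q 0 = 1 ∧
      (∀ z ∈ ball (0:ℂ) 1, q z ≠ 0) ∧ (∀ z, h z = z * q z) ∧
      (∀ n, tc h (n + 1) = tc q n) := by
  have hdiff : DifferentiableOn ℂ h (ball 0 1) :=
    fun z hz => (hder z hz).differentiableAt.differentiableWithinAt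
  have hq : DifferentiableOn ℂ (dslope h 0) (ball 0 1) :=
    (differentiableOn_dslope (ball_mem_nhds _ one_pos)).mpr hdiff
  have hhq : ∀ z, h z = z * dslope h 0 z := by
    intro z
    have := sub_smul_dslope h 0 z
    simp only [sub_zero, smul_eq_mul, h0] at this
    exact this.symm
  have hzero : (0:ℂ) ∈ ball (0:ℂ) 1 := mem_ball_self one_pos
  have q0 : dslope h 0 0 = 1 := by
    rw [dslope_same, (hder 0 hzero).deriv, hd0]
  refine ⟨dslope h 0, hq, q0, ?_, hhq, ?_⟩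
  · intro z hz hzq
    by_cases hz0 : z = 0
    · subst hz0; rw [q0] at hzq; exact one_ne_zero hzq
    · have h1 : h z = 0 := by rw [hhq z, hzq, mul_zero]
      exact hz0 (hinj hz hzero (by rw [h1, h0]))
  · intro n
    have e : h = fun z => z * dslope h 0 z := funext hhq
    have : tc h (n+1) = tc (fun z => z * dslope h 0 z) (n+1) := by rw [← e]
    rw [this, tc_shift hq]

/-- The derivative of our close-to-convex function. -/
noncomputable def hp (z : ℂ) : ℂ := (1 + z ^ 3) / ((1 - z) ^ 2 * (1 - z ^ 3))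

lemma one_sub_ne {z : ℂ} (hz : z ∈ ball (0:ℂ) 1) : 1 - z ≠ 0 := by
  intro h
  have : z = 1 := (sub_eq_zero.mp h).symm
  rw [this] at hz; simp at hz

lemma one_sub_pow_ne {z : ℂ} (hz : z ∈ ball (0:ℂ) 1) {k : ℕ} (hk : k ≠ 0) : 1 - z ^ k ≠ 0 := by
  apply one_sub_ne
  rw [mem_ball_zero_iff] at hz ⊢
  rw [norm_pow]
  exact pow_lt_one₀ (norm_nonneg _) hz hk

lemma hp_den {z : ℂ} (hz : z ∈ ball (0:ℂ) 1) : (1 - z) ^ 2 * (1 - z ^ 3) ≠ 0 :=
  mul_ne_zero (pow_ne_zero _ (one_sub_ne hz)) (one_sub_pow_ne hz (by norm_num))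

lemma hp_diff : DifferentiableOn ℂ hp (ball 0 1) := by
  apply DifferentiableOn.div
  · exact Differentiable.differentiableOn (by fun_prop)
  · exact Differentiable.differentiableOn (by fun_prop)
  · intro z hz; exact hp_den hz

/-- the first Taylor coefficients of `hp` -/
noncomputable def hc : ℕ → ℂ := fun n => if n = 0 then 1 else if n = 1 then 2 else if n = 2 then 3 else 6

lemma tc_hp {n : ℕ} (hn : n < 4) : tc hp n = hc n := by
  refine tc_eq_of_jet (N := 4) (c := hc)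
    (R := fun z => (9 - 6 * z + 2 * z^2 - 9 * z^3 + 6 * z^4) / ((1 - z) ^ 2 * (1 - z ^ 3))) ?_ ?_ hn
  · apply DifferentiableOn.div
    · exact Differentiable.differentiableOn (by fun_prop)
    · exact Differentiable.differentiableOn (by fun_prop)
    · intro z hz; exact hp_den hz
  · intro z hz
    have hne := hp_den hz
    have h1 := one_sub_ne hz
    have h3 : 1 - z ^ 3 ≠ 0 := one_sub_pow_ne hz (by norm_num)
    simp only [Finset.sum_range_succ, Finset.sum_range_zero, hc, hp]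
    norm_num
    field_simp
    ring

/-- positivity of the real part of a Cayley transform -/
lemma cayley_re {w : ℂ} (hw : ‖w‖ < 1) : 0 < ((1 + w) / (1 - w)).re := by
  have h1 : 1 - w ≠ 0 := one_sub_ne (by simpa using hw)
  have hpos : 0 < normSq (1 - w) := normSq_pos.mpr h1
  rw [Complex.div_re]
  have : ((1 + w).re * (1 - w).re / normSq (1 - w) + (1 + w).im * (1 - w).im / normSq (1 - w)) =
      (1 - normSq w) / normSq (1 - w) := by
    rw [← add_div]; congr 1
    simp [normSq_apply]; ring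
  rw [this]
  apply div_pos _ hpos
  have : normSq w < 1 := by
    rw [Complex.normSq_eq_norm_sq]
    exact pow_lt_one₀ (norm_nonneg _) hw (by norm_num)
  linarith

lemma hp_inj {h : ℂ → ℂ} (hder : ∀ z ∈ ball (0:ℂ) 1, HasDerivAt h (hp z) z) :
    InjOn h (ball 0 1) := by
  intro z₁ hz₁ z₂ hz₂ heq
  -- the half plane
  let H : Set ℂ := {w : ℂ | -(1/2) < w.re}
  have hH : Convex ℝ H := convex_halfSpace_re_gt _
  have hmem : ∀ w ∈ H, (1 + w ≠ 0) ∧ w / (1 + w) ∈ ball (0:ℂ) 1 := by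
    intro w hw
    have hw' : -(1/2) < w.re := hw
    have hne : 1 + w ≠ 0 := by
      intro h0
      have := congrArg Complex.re h0
      simp at this; linarith
    refine ⟨hne, ?_⟩
    rw [mem_ball_zero_iff, norm_div, div_lt_one (norm_pos_iff.mpr hne)]
    rw [← sq_lt_sq₀ (norm_nonneg _) (norm_nonneg _), ← Complex.normSq_eq_norm_sq, ← Complex.normSq_eq_norm_sq]
    simp [normSq_apply]
    nlinarith
  have hF : ∀ w ∈ H, HasDerivAt (fun w => h (w / (1 + w))) ((1 + (w/(1+w))^3) / (1 - (w/(1+w))^3)) w := by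
    intro w hw
    obtain ⟨hne, hb⟩ := hmem w hw
    have h1 := hder _ hb
    have h2 : HasDerivAt (fun w : ℂ => w / (1 + w)) (1 / (1 + w)^2) w := by
      have := (hasDerivAt_id w).div ((hasDerivAt_id w).const_add 1) hne
      have e5 : (1 * (1 + w) - id w * 1) / (1 + w)^2 = 1 / (1+w)^2 := by simp
      rw [← e5]
      exact this
    have h3 : HasDerivAt (fun w => h (w / (1 + w))) (hp (w/(1+w)) * (1 / (1+w)^2)) w :=
      HasDerivAt.comp w h1 h2
    have h4 : hp (w/(1+w)) * (1 / (1+w)^2) = (1 + (w/(1+w))^3) / (1 - (w/(1+w))^3) := by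
      unfold hp
      have e1 : 1 - w / (1+w) = 1/(1+w) := by field_simp; ring
      have e2 : (1:ℂ) - (w/(1+w))^3 ≠ 0 := one_sub_pow_ne hb (by norm_num)
      rw [e1]
      field_simp
    rw [← h4]; exact h3
  have hre : ∀ w ∈ H, 0 < ((1 + (w/(1+w))^3) / (1 - (w/(1+w))^3)).re := by
    intro w hw
    obtain ⟨hne, hb⟩ := hmem w hw
    apply cayley_re
    rw [mem_ball_zero_iff] at hb
    rw [norm_pow]
    exact pow_lt_one₀ (norm_nonneg _) hb (by norm_num)
  have hback : ∀ z ∈ ball (0:ℂ) 1, z / (1 - z) ∈ H ∧ (z/(1-z)) / (1 + z/(1-z)) = z := by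
    intro z hz
    have h1 := one_sub_ne hz
    have e1 : 1 + z/(1-z) = 1/(1-z) := by field_simp; ring
    refine ⟨?_, ?_⟩
    · have h2 := cayley_re (w := z) (by simpa using hz)
      have e2 : z/(1-z) = ((1+z)/(1-z) - 1)/2 := by field_simp; ring
      change -(1/2) < (z/(1-z)).re
      rw [e2]
      have e3 : (((1+z)/(1-z) - 1)/2).re = (((1+z)/(1-z)).re - 1)/2 := by
        rw [show ((1+z)/(1-z) - 1)/2 = ((1/2 : ℝ):ℂ) * ((1+z)/(1-z) - 1) by push_cast; ring,
          Complex.re_ofReal_mul]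
        simp; ring
      rw [e3]; linarith
    · rw [e1]; field_simp
  obtain ⟨a1, b1⟩ := hback z₁ hz₁
  obtain ⟨a2, b2⟩ := hback z₂ hz₂
  have := noshiro hH hF hre a1 a2 (by simp only [b1, b2]; exact heq)
  rw [← b1, ← b2, this]

/-- Existence of the family of exterior univalent functions. -/
theorem sigma_family {m : ℕ} (hm : m ≠ 0) :
    ∃ f : ℂ → ℂ, ∃ b : ℕ → ℂ,
      DifferentiableOn ℂ f {z : ℂ | 1 < ‖z‖} ∧ InjOn f {z : ℂ | 1 < ‖z‖} ∧
      (∀ z : ℂ, 1 < ‖z‖ → HasSum (fun k : ℕ => b k * (z⁻¹)^k) (f z - z)) ∧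
      b (3*m - 1) = -(1/(m:ℂ)) * (5/6 - 1/(2*(m:ℂ)) + 1/(6*(m:ℂ)^2)) := by
  obtain ⟨h, h0, hder⟩ := hp_diff.isExactOn_ball.with_val_at 0 0
  have hinj := hp_inj hder
  have hp0 : hp 0 = 1 := by simp [hp]
  obtain ⟨q, hq, q0, hqne, hhq, htq⟩ := exists_quot h0 hp0 hder hinj
  obtain ⟨Φ, hΦ, hΦ0, hroot, hΦd⟩ := exists_root hq q0 hqne hm
  obtain ⟨s1, s2, s3⟩ := sigma_of_root hm (fun z _ => hhq z) hinj hΦ hΦ0 hroot
  refine ⟨_, _, s1, s2, s3, ?_⟩
  have hm1 : 3 * m - 1 + 1 = m * 3 := by omega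
  simp only [hm1, dvd_mul_right, if_true]
  rw [Nat.mul_div_cancel_left _ (Nat.pos_of_ne_zero hm)]
  have hm' : (m:ℂ) ≠ 0 := by exact_mod_cast hm
  -- coefficients of `q`
  have hh : ∀ n : ℕ, n < 4 → ((n:ℂ) + 1) * tc q n = hc n := by
    intro n hn
    rw [← htq n, ← tc_deriv hder n, tc_hp hn]
  have t0 : tc q 0 = 1 := by have := hh 0 (by norm_num); simpa [hc] using this
  have t1 : tc q 1 = 1 := by
    have := hh 1 (by norm_num)
    simp [hc] at this
    linear_combination (1/2) * this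
  have t2 : tc q 2 = 1 := by
    have := hh 2 (by norm_num)
    simp [hc] at this
    linear_combination (1/3) * this
  have t3 : tc q 3 = 3/2 := by
    have := hh 3 (by norm_num)
    simp [hc] at this
    linear_combination (1/4) * this
  -- the differential equation
  set Φ' : ℂ → ℂ := fun z => -(1 / (m:ℂ)) * (deriv q z / q z) * Φ z with hΦ'
  have hq'd : DifferentiableOn ℂ (deriv q) (ball 0 1) := hq.deriv isOpen_ball
  have hΦ'd : DifferentiableOn ℂ Φ' (ball 0 1) :=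
    ((hq'd.div hq hqne).const_mul _).mul hΦ
  have hqd : ∀ z ∈ ball (0:ℂ) 1, HasDerivAt q (deriv q z) z := fun z hz =>
    (hq.differentiableAt (isOpen_ball.mem_nhds hz)).hasDerivAt
  have hode : ∀ n, tc (fun z => q z * Φ' z) n = -(1/(m:ℂ)) * tc (fun z => deriv q z * Φ z) n := by
    intro n
    rw [← tc_const_mul]
    apply tc_congr
    filter_upwards [ball_mem_nhds (0:ℂ) one_pos] with z hz
    have := hqne z hz
    simp only [hΦ']
    field_simp
  have hode2 : ∀ n, ∑ i ∈ Finset.range (n+1), tc q i * (((n - i : ℕ):ℂ) + 1) * tc Φ (n - i + 1) =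
      -(1/(m:ℂ)) * ∑ i ∈ Finset.range (n+1), ((i:ℂ) + 1) * tc q (i+1) * tc Φ (n-i) := by
    intro n
    have := hode n
    rw [tc_mul hq hΦ'd, tc_mul hq'd hΦ] at this
    simp only [tc_deriv hΦd, tc_deriv hqd] at this
    rw [← this]
    apply Finset.sum_congr rfl
    intro i _
    rw [mul_assoc]
    congr 1
    exact (tc_deriv hΦd (n-i)).symm
  have e0 := hode2 0
  have e1 := hode2 1
  have e2 := hode2 2
  have p0 : tc Φ 0 = 1 := by rw [tc_zero, hΦ0]
  simp only [Finset.sum_range_succ, Finset.sum_range_zero, t0, t1, t2, t3, p0, Nat.sub_zero, Nat.sub_self,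
    Nat.reduceSub, Nat.reduceAdd, zero_add, Nat.cast_zero, Nat.cast_one, Nat.cast_ofNat] at e0 e1 e2
  have p1 : tc Φ 1 = -(1/(m:ℂ)) := by linear_combination e0
  rw [p1] at e1 e2
  have p2 : tc Φ 2 = -(1/(2*(m:ℂ))) + 1/(2*(m:ℂ)^2) := by
    have : tc Φ 2 = (1/2) * (1 * (1 + 1) * tc Φ 2) := by ring
    rw [this]
    have e1' : 1 * (1 + 1) * tc Φ 2 = -(1/(m:ℂ)) * ((1 * -(1/(m:ℂ))) + (1+1)) + 1/(m:ℂ) := by
      linear_combination e1
    rw [e1']
    field_simp
    ring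
  rw [p2] at e2
  have e2' : tc Φ 3 = (1/3) * (-(1/(m:ℂ)) * ((-(1/(2*(m:ℂ))) + 1/(2*(m:ℂ)^2)) + 2 * -(1/(m:ℂ)) + 9/2)
      - 2 * (-(1/(2*(m:ℂ))) + 1/(2*(m:ℂ)^2)) + 1/(m:ℂ)) := by
    linear_combination (1/3) * e2
  rw [e2']
  field_simp
  ring

end Pool.Agent.R254
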