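import Mathlib
import Pool.Agent.R254.Jet
import Pool.Agent.R254.JetPoly
import Pool.Agent.R254.SigmaFam

set_option autoImplicit false

open Complex Metric Set Filter Topology

namespace Pool.Agent.R254

/-- `(1-z)^(-c)` -/
noncomputable def bP (c z : ℂ) : ℂ := exp (-c * log (1 - z))

/-- binomial coefficients: `(1-z)^(-c) = ∑ pc c m z^m` -/
noncomputable def pc (c : ℂ) (m : ℕ) : ℂ := ∏ k ∈ Finset.range m, (c + k) / (k + 1)

theorem one_sub_re {z : ℂ} (hz : z ∈ ball (0:ℂ) 1) : 0 < (1 - z).re := by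
  have h1 : ‖z‖ < 1 := by simpa using hz
  have h2 := abs_re_le_norm z
  have h3 := le_abs_self z.re
  simp only [sub_re, one_re]
  linarith

theorem one_sub_mem {z : ℂ} (hz : z ∈ ball (0:ℂ) 1) : 1 - z ∈ slitPlane :=
  Or.inl (one_sub_re hz)

theorem bP_add (c d z : ℂ) : bP (c + d) z = bP c z * bP d z := by
  unfold bP; rw [← exp_add]; congr 1; ring

theorem bP_zero (c : ℂ) : bP c 0 = 1 := by unfold bP; simp

theorem bP_ne (c z : ℂ) : bP c z ≠ 0 := exp_ne_zero _

theorem bP_z (z : ℂ) : bP 0 z = 1 := by unfold bP; simp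

theorem bP_one {z : ℂ} (hz : z ∈ ball (0:ℂ) 1) : bP 1 z = 1 / (1 - z) := by
  unfold bP
  rw [neg_one_mul, exp_neg, exp_log (one_sub_ne hz), one_div]

theorem bP_deriv (c : ℂ) {z : ℂ} (hz : z ∈ ball (0:ℂ) 1) :
    HasDerivAt (bP c) (c * bP (c + 1) z) z := by
  have h1 : HasDerivAt (fun w : ℂ => 1 - w) (-1) z := by
    simpa using (hasDerivAt_id z).const_sub 1
  have h2 := ((h1.clog (one_sub_mem hz)).const_mul (-c)).cexp
  have h3 : exp (-c * log (1 - z)) * (-c * (-1 / (1 - z))) = c * bP (c + 1) z := by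
    rw [bP_add, bP_one hz]
    unfold bP
    ring
  rw [h3] at h2
  exact h2

theorem bP_diff (c : ℂ) : DifferentiableOn ℂ (bP c) (ball 0 1) :=
  fun _ hz => (bP_deriv c hz).differentiableAt.differentiableWithinAt

theorem pc_succ (c : ℂ) (m : ℕ) : pc c (m + 1) = pc c m * ((c + m) / (m + 1)) := by
  unfold pc; rw [Finset.prod_range_succ]

theorem pc_zero (c : ℂ) : pc c 0 = 1 := by unfold pc; simp

/-- Taylor coefficients of `(1-z)^(-c)`. -/
theorem tc_bP (c : ℂ) (m : ℕ) : tc (bP c) m = pc c m := by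
  have hd : ∀ z ∈ ball (0:ℂ) 1, HasDerivAt (bP c) (c * bP (c + 1) z) z := fun z hz => bP_deriv c hz
  have hD : DifferentiableOn ℂ (fun z => c * bP (c + 1) z) (ball 0 1) := (bP_diff (c+1)).const_mul c
  have hzD : DifferentiableOn ℂ (fun z => z * (c * bP (c + 1) z)) (ball 0 1) :=
    (Differentiable.differentiableOn (by fun_prop)).mul hD
  have hnz : DifferentiableOn ℂ (fun z => (-1) * (z * (c * bP (c + 1) z))) (ball 0 1) := hzD.const_mul _
  have hode : ∀ n, tc (fun z => c * bP (c + 1) z) n - tc (fun z => z * (c * bP (c + 1) z)) n =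
      c * tc (bP c) n := by
    intro n
    have e : (fun z => c * bP (c + 1) z + (-1) * (z * (c * bP (c + 1) z))) =ᶠ[𝓝 0] fun z => c * bP c z := by
      filter_upwards [ball_mem_nhds (0:ℂ) one_pos] with z hz
      rw [bP_add, bP_one hz]
      have := one_sub_ne hz
      field_simp
      ring
    have h1 := tc_congr e n
    rw [tc_add hD hnz, tc_const_mul (c := -1), tc_const_mul (f := bP c)] at h1
    rw [← h1]; ring
  induction m with
  | zero => rw [tc_zero, bP_zero, pc_zero]
  | succ m ih =>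
    have hm : (m : ℂ) + 1 ≠ 0 := Nat.cast_add_one_ne_zero m
    have h1 := hode m
    rw [tc_deriv hd m] at h1
    have h2 : tc (fun z => z * (c * bP (c + 1) z)) m = (m:ℂ) * tc (bP c) m := by
      cases m with
      | zero => rw [tc_zero]; simp
      | succ k =>
        rw [tc_shift hD, tc_deriv hd k]
        push_cast; ring
    rw [h2] at h1
    rw [pc_succ, ← ih]
    field_simp
    linear_combination h1

/-- rotation of Taylor coefficients -/
theorem tc_rot {f : ℂ → ℂ} (hf : DifferentiableOn ℂ f (ball 0 1)) {c : ℂ} (hc : ‖c‖ ≤ 1) (n : ℕ) :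
    tc (fun z => f (c * z)) n = c ^ n * tc f n := by
  have hmem : ∀ z ∈ ball (0:ℂ) 1, c * z ∈ ball (0:ℂ) 1 := by
    intro z hz
    rw [mem_ball_zero_iff] at hz ⊢
    rw [norm_mul]
    nlinarith [norm_nonneg z, norm_nonneg c]
  have key : ∀ n : ℕ, ∀ z ∈ ball (0:ℂ) 1,
      iteratedDeriv n (fun z => f (c * z)) z = c ^ n * iteratedDeriv n f (c * z) := by
    intro n
    induction n with
    | zero => intro z _; simp
    | succ n ih =>
      intro z hz
      rw [iteratedDeriv_succ, iteratedDeriv_succ]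
      have h1 : iteratedDeriv n (fun z => f (c * z)) =ᶠ[𝓝 z] fun z => c ^ n * iteratedDeriv n f (c * z) := by
        filter_upwards [isOpen_ball.mem_nhds hz] with w hw
        exact ih w hw
      rw [h1.deriv_eq]
      have h2 : AnalyticAt ℂ (iteratedDeriv n f) (c * z) := by
        have := (hf.analyticAt (isOpen_ball.mem_nhds (hmem z hz)))
        rw [iteratedDeriv_eq_iterate]
        exact this.iterated_deriv n
      have h3 : HasDerivAt (fun z => c * z) c z := by
        simpa using (hasDerivAt_id z).const_mul c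
      have h4 := (h2.differentiableAt.hasDerivAt.comp z h3).const_mul (c ^ n)
      have h5 := h4.deriv
      simp only [Function.comp_def] at h5
      rw [h5, pow_succ]; ring
  unfold tc
  rw [key n 0 (mem_ball_self one_pos), mul_zero]
  ring

end Pool.Agent.R254
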