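import Pool.Agent.R94.LS.Stm

set_option autoImplicit false

/-!
# Even sets of the line-switching game have positive density (from the crossing lemma)
-/

namespace Pool.Agent.R94.LS

open Finset

section
variable {ι : Type} (x y : ι → ℝ)

/-- slope of the line through `i` and `j` -/
noncomputable def slp (i j : ι) : ℝ := (y j - y i) / (x j - x i)

/-- slope and intercept of the line through `i` and `j` -/
noncomputable def lab (i j : ι) : ℝ × ℝ := (slp x y i j, y i - slp x y i j * x i)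

/-- the point `k` is on the line `p` -/
def On (p : ℝ × ℝ) (k : ι) : Prop := y k = p.1 * x k + p.2

variable {x y}

lemma lab_iff (hx : Function.Injective x) {k l : ι} (h : k ≠ l) (p : ℝ × ℝ) :
    lab x y k l = p ↔ On x y p k ∧ On x y p l := by
  have hne : x l - x k ≠ 0 := sub_ne_zero.2 fun e => h (hx e).symm
  constructor
  · rintro rfl
    refine ⟨?_, ?_⟩
    · simp only [On, lab]; ring
    · simp only [On, lab, slp]
      field_simp
      ring
  · rintro ⟨h1, h2⟩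
    simp only [On] at h1 h2
    have hs : slp x y k l = p.1 := by
      rw [slp, div_eq_iff hne, h1, h2]; ring
    ext
    · simp [lab, hs]
    · simp only [lab, hs]; linarith

lemma on_left {k l : ι} : On x y (lab x y k l) k := by
  simp only [On, lab]; ring

lemma on_right (hx : Function.Injective x) {k l : ι} (h : k ≠ l) : On x y (lab x y k l) l :=
  ((lab_iff hx h _).1 rfl).2

lemma on_uniq (hx : Function.Injective x) {k l : ι} (h : k ≠ l) {p q : ℝ × ℝ}
    (h1 : On x y p k) (h2 : On x y p l) (h3 : On x y q k) (h4 : On x y q l) : p = q := by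
  rw [← (lab_iff hx h p).2 ⟨h1, h2⟩, ← (lab_iff hx h q).2 ⟨h3, h4⟩]

lemma col_iff (hx : Function.Injective x) {i j : ι} (h : i ≠ j) (k : ι) :
    Col x y i j k ↔ On x y (lab x y i j) k := by
  have hne : x j - x i ≠ 0 := sub_ne_zero.2 fun e => h (hx e).symm
  simp only [Col, On, lab, slp]
  constructor
  · intro h1
    field_simp
    linarith
  · intro h1
    field_simp at h1
    linarith

lemma ht_eq (e : ι × ι) (t : ℝ) :
    ht x y e t = (lab x y e.1 e.2).1 * t + (lab x y e.1 e.2).2 := by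
  simp only [ht, lab, slp]; ring

end

section
variable {ι : Type} [Fintype ι] [DecidableEq ι] (x y : ι → ℝ)

open Classical in
/-- the points of the line `p` -/
noncomputable def T (p : ℝ × ℝ) : Finset ι := univ.filter fun k => On x y p k

/-- the connecting lines -/
noncomputable def Ls : Finset (ℝ × ℝ) :=
  (univ : Finset ι).offDiag.image fun q => lab x y q.1 q.2

variable {x y}

lemma mem_T {p : ℝ × ℝ} {k : ι} : k ∈ T x y p ↔ On x y p k := by simp [T]

lemma lab_mem {i j : ι} (h : i ≠ j) : lab x y i j ∈ Ls x y :=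
  mem_image.2 ⟨(i, j), by simpa using h, rfl⟩

lemma ln_eq (hx : Function.Injective x) {i j : ι} (h : i ≠ j) :
    ln x y i j = T x y (lab x y i j) := by
  ext k
  simp only [ln, mem_filter, mem_univ, true_and, mem_T, col_iff hx h]

/-- double counting -/
lemma cnt (hx : Function.Injective x) (A B : Finset ι) :
    ∑ a ∈ A, (B.erase a).card =
      ∑ p ∈ Ls x y, ∑ a ∈ A ∩ T x y p, ((B ∩ T x y p).erase a).card := by
  have h1 : ∀ a ∈ A, (B.erase a).card =
      ∑ p ∈ Ls x y, if a ∈ T x y p then ((B ∩ T x y p).erase a).card else 0 := by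
    intro a _
    rw [card_eq_sum_card_fiberwise (f := fun k => lab x y a k) (t := Ls x y)]
    · refine sum_congr rfl fun p _ => ?_
      split_ifs with h
      · congr 1
        ext k
        simp only [mem_filter, mem_erase, mem_inter, mem_T]
        constructor
        · rintro ⟨⟨hk, hB⟩, hl⟩
          exact ⟨hk, hB, ((lab_iff hx (Ne.symm hk) p).1 hl).2⟩
        · rintro ⟨hk, hB, hl⟩
          exact ⟨⟨hk, hB⟩, (lab_iff hx (Ne.symm hk) p).2 ⟨mem_T.1 h, hl⟩⟩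
      · rw [card_eq_zero, filter_eq_empty_iff]
        intro k hk hl
        exact h (mem_T.2 ((lab_iff hx (Ne.symm (mem_erase.1 hk).1) p).1 hl).1)
    · intro k hk
      exact lab_mem (Ne.symm (mem_erase.1 hk).1)
  rw [sum_congr rfl h1, sum_comm]
  refine sum_congr rfl fun p _ => ?_
  rw [← sum_filter]
  refine sum_congr ?_ fun _ _ => rfl
  ext a
  simp

lemma cnt_erase (A B : Finset ι) (h : A ⊆ B) :
    ∑ a ∈ A, (B.erase a).card = A.card * (B.card - 1) := by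
  rw [sum_congr rfl fun a ha => card_erase_of_mem (h ha), sum_const, smul_eq_mul]

lemma cnt1 (hx : Function.Injective x) (A B : Finset ι) (h : A ⊆ B) :
    A.card * (B.card - 1) =
      ∑ p ∈ Ls x y, (A ∩ T x y p).card * ((B ∩ T x y p).card - 1) := by
  rw [← cnt_erase A B h, cnt hx A B]
  refine sum_congr rfl fun p _ => cnt_erase _ _ (inter_subset_inter_right h)

open Classical in
/-- pairs of consecutive points on the lines of `M` -/
noncomputable def Eg (x y : ι → ℝ) (M : Finset (ℝ × ℝ)) : Finset (ι × ι) :=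
  univ.filter fun q => x q.1 < x q.2 ∧ lab x y q.1 q.2 ∈ M ∧
    ∀ k, On x y (lab x y q.1 q.2) k → ¬(x q.1 < x k ∧ x k < x q.2)

lemma mem_Eg {M : Finset (ℝ × ℝ)} {q : ι × ι} : q ∈ Eg x y M ↔ x q.1 < x q.2 ∧
    lab x y q.1 q.2 ∈ M ∧ ∀ k, On x y (lab x y q.1 q.2) k → ¬(x q.1 < x k ∧ x k < x q.2) := by
  simp [Eg]

lemma Eg_card (hx : Function.Injective x) (M : Finset (ℝ × ℝ)) :
    ∑ p ∈ M, ((T x y p).card - 1) ≤ (Eg x y M).card := by
  rw [card_eq_sum_card_fiberwise (s := Eg x y M) (f := fun q => lab x y q.1 q.2) (t := M)]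
  swap
  · intro q hq
    exact (mem_Eg.1 hq).2.1
  refine sum_le_sum fun p hp => ?_
  rcases (T x y p).eq_empty_or_nonempty with h0 | h0
  · simp [h0]
  obtain ⟨mx, hmx, hmax⟩ := exists_max_image (T x y p) x h0
  have h1 : (T x y p).erase mx ⊆
      ((Eg x y M).filter fun q => lab x y q.1 q.2 = p).image Prod.fst := by
    intro i hi
    obtain ⟨hi1, hi2⟩ := mem_erase.1 hi
    have hlt : x i < x mx := lt_of_le_of_ne (hmax i hi2) fun e => hi1 (hx e)
    obtain ⟨j, hj, hmin⟩ := exists_min_image ((T x y p).filter fun k => x i < x k) x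
      ⟨mx, mem_filter.2 ⟨hmx, hlt⟩⟩
    obtain ⟨hj1, hj2⟩ := mem_filter.1 hj
    have hij : i ≠ j := fun e => by rw [e] at hj2; exact lt_irrefl _ hj2
    have hl : lab x y i j = p := (lab_iff hx hij p).2 ⟨mem_T.1 hi2, mem_T.1 hj1⟩
    refine mem_image.2 ⟨(i, j), mem_filter.2 ⟨mem_Eg.2 ⟨hj2, by simpa [hl] using hp, ?_⟩, hl⟩, rfl⟩
    intro k hk hk2
    simp only [hl] at hk
    exact absurd (hmin k (mem_filter.2 ⟨mem_T.2 hk, hk2.1⟩)) (not_le.2 hk2.2)
  calc (T x y p).card - 1 = ((T x y p).erase mx).card := (card_erase_of_mem hmx).symm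
    _ ≤ _ := card_le_card h1
    _ ≤ _ := card_image_le

lemma Eg_uniq (hx : Function.Injective x) {M : Finset (ℝ × ℝ)} {e f : ι × ι} (he : e ∈ Eg x y M)
    (hf : f ∈ Eg x y M) (hl : lab x y e.1 e.2 = lab x y f.1 f.2) {t : ℝ} (h1 : x e.1 < t)
    (h2 : t < x e.2) (h3 : x f.1 < t) (h4 : t < x f.2) : e = f := by
  obtain ⟨e1, _, e3⟩ := mem_Eg.1 he
  obtain ⟨f1, _, f3⟩ := mem_Eg.1 hf
  have hne : e.1 ≠ e.2 := fun h => by rw [h] at e1; exact lt_irrefl _ e1
  have hnf : f.1 ≠ f.2 := fun h => by rw [h] at f1; exact lt_irrefl _ f1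
  have oe1 : On x y (lab x y e.1 e.2) e.1 := on_left
  have oe2 : On x y (lab x y e.1 e.2) e.2 := on_right hx hne
  have of1 : On x y (lab x y f.1 f.2) f.1 := on_left
  have of2 : On x y (lab x y f.1 f.2) f.2 := on_right hx hnf
  have a1 : ¬ x e.1 < x f.1 := fun h => e3 f.1 (hl ▸ of1) ⟨h, h3.trans h2⟩
  have a2 : ¬ x f.1 < x e.1 := fun h => f3 e.1 (hl ▸ oe1) ⟨h, h1.trans h4⟩
  have a3 : ¬ x e.2 < x f.2 := fun h => f3 e.2 (hl ▸ oe2) ⟨h3.trans h2, h⟩
  have a4 : ¬ x f.2 < x e.2 := fun h => e3 f.2 (hl ▸ of2) ⟨h1.trans h4, h⟩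
  have b1 : e.1 = f.1 := hx (le_antisymm (not_lt.1 a2) (not_lt.1 a1))
  have b2 : e.2 = f.2 := hx (le_antisymm (not_lt.1 a4) (not_lt.1 a3))
  exact Prod.ext b1 b2

open Classical in
lemma cross_card (hx : Function.Injective x) (M : Finset (ℝ × ℝ)) :
    ((Eg x y M ×ˢ Eg x y M).filter fun p => Crs x y p.1 p.2).card ≤ M.card ^ 2 := by
  have h : ((Eg x y M ×ˢ Eg x y M).filter fun p => Crs x y p.1 p.2).card ≤ (M ×ˢ M).card := by
    refine card_le_card_of_injOn
      (fun p => (lab x y p.1.1 p.1.2, lab x y p.2.1 p.2.2)) ?_ ?_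
    · intro p hp
      have hp' := mem_product.1 (mem_filter.1 hp).1
      exact mem_product.2 ⟨(mem_Eg.1 hp'.1).2.1, (mem_Eg.1 hp'.2).2.1⟩
    · intro p hp q hq hpq
      obtain ⟨hp1, hp2⟩ := mem_filter.1 (mem_coe.1 hp)
      obtain ⟨hq1, hq2⟩ := mem_filter.1 (mem_coe.1 hq)
      obtain ⟨hp3, hp4⟩ := mem_product.1 hp1
      obtain ⟨hq3, hq4⟩ := mem_product.1 hq1
      obtain ⟨hne, t, t1, t2, t3, t4, t5⟩ := hp2
      obtain ⟨hne', r, r1, r2, r3, r4, r5⟩ := hq2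
      have hl1 : lab x y p.1.1 p.1.2 = lab x y q.1.1 q.1.2 := (Prod.ext_iff.1 hpq).1
      have hl2 : lab x y p.2.1 p.2.2 = lab x y q.2.1 q.2.2 := (Prod.ext_iff.1 hpq).2
      rw [ht_eq, ht_eq] at t5 r5
      rw [← hl1, ← hl2] at r5
      have hd : lab x y p.1.1 p.1.2 ≠ lab x y p.2.1 p.2.2 := fun h =>
        hne (Eg_uniq hx hp3 hp4 h t1 t2 t3 t4)
      have hs : (lab x y p.1.1 p.1.2).1 ≠ (lab x y p.2.1 p.2.2).1 := by
        intro h
        apply hd
        refine Prod.ext h ?_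
        rw [h] at t5
        linarith
      have htr : t = r := by
        have h6 : ((lab x y p.1.1 p.1.2).1 - (lab x y p.2.1 p.2.2).1) * (t - r) = 0 := by
          linarith
        rcases mul_eq_zero.1 h6 with h7 | h7
        · exact absurd (sub_eq_zero.1 h7) hs
        · exact sub_eq_zero.1 h7
      subst htr
      exact Prod.ext (Eg_uniq hx hp3 hq3 hl1 t1 t2 r1 r2) (Eg_uniq hx hp4 hq4 hl2 t3 t4 r3 r4)
  rwa [card_product, ← sq] at h

lemma edge_bound (hA : StmtA) (hx : Function.Injective x) (M : Finset (ℝ × ℝ)) :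
    ∑ p ∈ M, ((T x y p).card - 1) ≤ 6 * Fintype.card ι ∨
      (∑ p ∈ M, ((T x y p).card - 1)) ^ 3 ≤ 288 * Fintype.card ι ^ 2 * M.card ^ 2 := by
  classical
  set n := Fintype.card ι with hn
  set e := ∑ p ∈ M, ((T x y p).card - 1) with he
  have h1 : e ≤ (Eg x y M).card := Eg_card hx M
  by_cases h : (Eg x y M).card < 6 * n
  · exact Or.inl (h1.trans h.le)
  right
  push Not at h
  set N := (Eg x y M).card with hN
  rcases Nat.eq_zero_or_pos n with h0 | hn0
  · have : IsEmpty ι := Fintype.card_eq_zero_iff.1 (hn ▸ h0)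
    have : N = 0 := by
      rw [hN, card_eq_zero, eq_empty_iff_forall_notMem]
      intro q
      exact (this.false q.1).elim
    have : e = 0 := by omega
    rw [this]
    simp
  set k := N / (6 * n) with hk
  have hk1 : 1 ≤ k := (Nat.one_le_div_iff (by omega)).2 h
  have hk2 : k * (6 * n) ≤ N := Nat.div_mul_le_self _ _
  have hk3 : N < (k + 1) * (6 * n) := by
    exact (Nat.div_lt_iff_lt_mul (by omega)).1 (Nat.lt_succ_self _)
  have hA' := hA ι x y hx (Eg x y M) (fun e he => (mem_Eg.1 he).1) (by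
    intro e he w hw1 hw2 hw3
    rw [ht_eq] at hw3
    exact (mem_Eg.1 he).2.2 w hw3 ⟨hw1, hw2⟩) k hk1
  have hX := cross_card (x := x) (y := y) hx M
  have h2 : k ^ 2 * N ≤ 3 * k ^ 3 * n + M.card ^ 2 := by
    refine hA'.trans (Nat.add_le_add_left ?_ _)
    convert hX
  have h3 : 2 * (3 * k ^ 3 * n) ≤ k ^ 2 * N := by
    calc 2 * (3 * k ^ 3 * n) = k ^ 2 * (k * (6 * n)) := by ring
      _ ≤ _ := Nat.mul_le_mul_left _ hk2
  have h4 : k ^ 2 * N ≤ 2 * M.card ^ 2 := by omega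
  have h5 : N ≤ 12 * k * n := by nlinarith
  calc e ^ 3 ≤ N ^ 3 := Nat.pow_le_pow_left h1 3
    _ = N ^ 2 * N := by ring
    _ ≤ (12 * k * n) ^ 2 * N := Nat.mul_le_mul_right _ (Nat.pow_le_pow_left h5 2)
    _ = 144 * n ^ 2 * (k ^ 2 * N) := by ring
    _ ≤ 144 * n ^ 2 * (2 * M.card ^ 2) := Nat.mul_le_mul_left _ h4
    _ = 288 * n ^ 2 * M.card ^ 2 := by ring

/-- points of an even set on a line -/
lemma two_le {A : Finset ι} (hx : Function.Injective x) (hev : EvenSet x y A) {p : ℝ × ℝ}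
    (hp : p ∈ Ls x y) : Even (A ∩ T x y p).card := by
  obtain ⟨q, hq, rfl⟩ := mem_image.1 hp
  have hne : q.1 ≠ q.2 := by simpa using hq
  rw [← ln_eq hx hne]
  exact hev _ _ hne

lemma another {A : Finset ι} (hx : Function.Injective x) (hev : EvenSet x y A) {a k : ι}
    (ha : a ∈ A) (hk : a ≠ k) : ∃ b ∈ A, b ≠ a ∧ On x y (lab x y a k) b := by
  by_contra h
  push Not at h
  have h1 : A ∩ T x y (lab x y a k) = {a} := by
    ext b
    simp only [mem_inter, mem_T, mem_singleton]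
    constructor
    · rintro ⟨h1, h2⟩
      by_contra h3
      exact h b h1 h3 h2
    · rintro rfl
      exact ⟨ha, on_left⟩
  have h2 := two_le hx hev (lab_mem (x := x) (y := y) hk)
  rw [h1] at h2
  simp at h2

/-- an even set is not contained in a line -/
lemma not_line {A : Finset ι} (hx : Function.Injective x) (hev : EvenSet x y A)
    (hne : A.Nonempty) (hnc : ∃ i j k, ¬ Col x y i j k) (p : ℝ × ℝ) :
    ∃ a ∈ A, ¬ On x y p a := by
  by_contra h
  push Not at h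
  have h1 : ∃ q, ¬ On x y p q := by
    by_contra h1
    push Not at h1
    obtain ⟨i, j, k, hc⟩ := hnc
    apply hc
    have hi := h1 i
    have hj := h1 j
    have hk := h1 k
    simp only [On] at hi hj hk
    simp only [Col, hi, hj, hk]
    ring
  obtain ⟨q, hq⟩ := h1
  obtain ⟨a, ha⟩ := hne
  have haq : a ≠ q := fun e => hq (e ▸ h a ha)
  obtain ⟨b, hb, hba, hon⟩ := another hx hev ha haq
  have := on_uniq hx hba (h b hb) (h a ha) hon on_left
  exact hq (this ▸ on_right hx haq)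

/-- a line has at most `|A|` points -/
lemma line_card {A : Finset ι} (hx : Function.Injective x) (hev : EvenSet x y A)
    (hne : A.Nonempty) (hnc : ∃ i j k, ¬ Col x y i j k) (p : ℝ × ℝ) :
    (T x y p).card ≤ A.card := by
  classical
  obtain ⟨a, ha, hap⟩ := not_line hx hev hne hnc p
  have h1 : ∀ k : ι, ∃ b : ι, k ∈ T x y p → (b ∈ A ∧ b ≠ a ∧ On x y (lab x y a k) b) := by
    intro k
    by_cases hk : k ∈ T x y p
    · have hak : a ≠ k := fun e => hap (e ▸ mem_T.1 hk)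
      obtain ⟨b, hb⟩ := another hx hev ha hak
      exact ⟨b, fun _ => ⟨hb.1, hb.2.1, hb.2.2⟩⟩
    · exact ⟨a, fun h => absurd h hk⟩
  choose f hf using h1
  refine card_le_card_of_injOn f (fun k hk => (hf k hk).1) ?_
  intro k hk l hl hkl
  by_contra hne
  have hk' := hf k hk
  have hl' := hf l hl
  rw [← hkl] at hl'
  have hak : a ≠ k := fun e => hap (e ▸ mem_T.1 hk)
  have hal : a ≠ l := fun e => hap (e ▸ mem_T.1 hl)
  have h2 : lab x y a k = lab x y a l :=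
    on_uniq hx hk'.2.1 hk'.2.2 on_left hl'.2.2 on_left
  have h3 : p = lab x y a k :=
    on_uniq hx hne (mem_T.1 hk) (mem_T.1 hl) (on_right hx hak) (h2 ▸ on_right hx hal)
  exact hap (h3 ▸ on_left)

/-- layer cake with the powers of 8 -/
lemma layer (m l J : ℕ) : m * l ≤
    (∑ j ∈ range J, if 8 ^ j ≤ m then 8 ^ (j + 1) * l else 0) + if 8 ^ J ≤ m then m * l else 0 := by
  by_cases h : 8 ^ J ≤ m
  · rw [if_pos h]; exact Nat.le_add_left _ _
  rcases Nat.eq_zero_or_pos m with h0 | h0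
  · simp [h0]
  have h1 : 8 ^ Nat.log 8 m ≤ m := Nat.pow_log_le_self 8 h0.ne'
  have h2 : m < 8 ^ (Nat.log 8 m + 1) := Nat.lt_pow_succ_log_self (by norm_num) m
  have h3 : Nat.log 8 m < J := by
    by_contra h4
    push Not at h4 h
    exact absurd ((Nat.pow_le_pow_right (by norm_num) h4).trans h1) (not_le.2 h)
  refine le_trans ?_ (Nat.le_add_right _ _)
  refine le_trans ?_ (single_le_sum (f := fun j => if 8 ^ j ≤ m then 8 ^ (j + 1) * l else 0)
    (fun _ _ => Nat.zero_le _) (mem_range.2 h3))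
  simp only [if_pos h1]
  exact Nat.mul_le_mul_right _ h2.le

lemma even_sq {m t : ℕ} (he : Even m) (ht : 1 ≤ t) (h : t ≤ m) :
    m ^ 2 ≤ 2 * (m * (m - 1)) := by
  obtain ⟨r, hr⟩ := he
  have : 1 ≤ r := by omega
  have h2 : m ≤ 2 * (m - 1) := by omega
  calc m ^ 2 = m * m := sq m
    _ ≤ m * (2 * (m - 1)) := Nat.mul_le_mul_left _ h2
    _ = 2 * (m * (m - 1)) := by ring

lemma ebd (n s c e j : ℕ) (hlt : (10 ^ 9 : ℝ) * s < n) (h : e ^ 3 ≤ 288 * n ^ 2 * c ^ 2)
    (h1 : c * (8 ^ j) ^ 2 ≤ 2 * s ^ 2) : (e : ℝ) ≤ 11 * (n * s / 1000) / 16 ^ j := by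
  have h2 : (e : ℝ) ^ 3 ≤ 288 * n ^ 2 * (c : ℝ) ^ 2 := by exact_mod_cast h
  have h3 : (c : ℝ) * (8 ^ j) ^ 2 ≤ 2 * s ^ 2 := by exact_mod_cast h1
  have h4 : ((c : ℝ) * (8 ^ j) ^ 2) ^ 2 ≤ (2 * s ^ 2) ^ 2 :=
    pow_le_pow_left₀ (by positivity) h3 2
  have h6 : ((16 : ℝ) ^ j) ^ 3 = ((8 ^ j) ^ 2) ^ 2 := by
    have a1 : ((16 : ℝ) ^ j) ^ 3 = (16 ^ 3) ^ j := by rw [← pow_mul, ← pow_mul, mul_comm]
    have a2 : (((8 : ℝ) ^ j) ^ 2) ^ 2 = (8 ^ 4) ^ j := by
      rw [← pow_mul, ← pow_mul, ← pow_mul]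
      congr 1
      ring
    rw [a1, a2]
    norm_num
  have h5 : ((e : ℝ) * 16 ^ j) ^ 3 ≤ (11 * (n * s / 1000)) ^ 3 := by
    calc ((e : ℝ) * 16 ^ j) ^ 3 = (e : ℝ) ^ 3 * ((16 : ℝ) ^ j) ^ 3 := by ring
      _ = (e : ℝ) ^ 3 * ((8 ^ j) ^ 2) ^ 2 := by rw [h6]
      _ ≤ 288 * n ^ 2 * (c : ℝ) ^ 2 * ((8 ^ j) ^ 2) ^ 2 :=
          mul_le_mul_of_nonneg_right h2 (by positivity)
      _ = 288 * n ^ 2 * ((c : ℝ) * (8 ^ j) ^ 2) ^ 2 := by ring
      _ ≤ 288 * n ^ 2 * (2 * s ^ 2) ^ 2 := mul_le_mul_of_nonneg_left h4 (by positivity)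
      _ = (1152 * s) * (n ^ 2 * s ^ 3) := by ring
      _ ≤ (1331 / 10 ^ 9 * n) * (n ^ 2 * s ^ 3) := by
          refine mul_le_mul_of_nonneg_right ?_ (by positivity)
          linarith
      _ = _ := by ring
  have h7 : (e : ℝ) * 16 ^ j ≤ 11 * (n * s / 1000) :=
    le_of_pow_le_pow_left₀ (by norm_num) (by positivity) h5
  rw [le_div_iff₀ (by positivity)]
  exact h7

lemma first_bd (N s : ℝ) (J : ℕ) (e : ℕ → ℝ) (hN : 0 ≤ N) (hs : 0 ≤ s)
    (hebd : ∀ j, e j ≤ 6 * N + 11 * (N * s / 1000) / 16 ^ j) :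
    (∑ j ∈ range J, 8 ^ (j + 1) * e j) ≤
      48 * N * ((8 ^ J - 1) / 7) + 88 * (N * s / 1000) * 2 := by
  have h1 : ∀ j ∈ range J, 8 ^ (j + 1) * e j ≤
      48 * N * 8 ^ j + 88 * (N * s / 1000) * (1 / 2) ^ j := by
    intro j _
    have h2 : (1 / 2 : ℝ) ^ j = 8 ^ j / 16 ^ j := by
      rw [← div_pow]; norm_num
    rw [h2]
    calc 8 ^ (j + 1) * e j ≤ 8 ^ (j + 1) * (6 * N + 11 * (N * s / 1000) / 16 ^ j) :=
          mul_le_mul_of_nonneg_left (hebd j) (by positivity)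
      _ = _ := by ring
  refine (sum_le_sum h1).trans ?_
  rw [sum_add_distrib, ← mul_sum, ← mul_sum]
  have h3 : (∑ j ∈ range J, (8 : ℝ) ^ j) = (8 ^ J - 1) / 7 := by
    rw [geom_sum_eq (by norm_num)]; norm_num
  have h4 : (∑ j ∈ range J, (1 / 2 : ℝ) ^ j) ≤ 2 := by
    rw [geom_sum_eq (by norm_num)]
    have : (0 : ℝ) ≤ (1 / 2) ^ J := by positivity
    have h5 : ((1 / 2 : ℝ) ^ J - 1) / (1 / 2 - 1) = 2 - 2 * (1 / 2) ^ J := by ring
    rw [h5]
    linarith
  rw [h3]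
  have h5 : (0 : ℝ) ≤ 88 * (N * s / 1000) := by positivity
  have h6 := mul_le_mul_of_nonneg_left h4 h5
  linarith

lemma fin_arith (n s Z J : ℕ) (e : ℕ → ℕ) (hs : 1 ≤ s) (hlt : (10 ^ 9 : ℝ) * s < n)
    (hJ1 : s < 224 * 8 ^ J) (hJ2 : (8 : ℝ) ^ J - 1 ≤ s / 28)
    (hebd : ∀ j, (e j : ℝ) ≤ 6 * n + 11 * (n * s / 1000) / 16 ^ j)
    (main : s * (n - 1) ≤ (∑ j ∈ range J, 8 ^ (j + 1) * e j) + Z)
    (third : 8 ^ J * Z ≤ 2 * s ^ 3) : False := by
  have hsR : (1 : ℝ) ≤ s := by exact_mod_cast hs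
  have hn0 : (0 : ℝ) ≤ n := by positivity
  have third' : (Z : ℝ) ≤ 448 * s ^ 2 := by
    have h1 : (8 : ℝ) ^ J * Z ≤ 2 * s ^ 3 := by exact_mod_cast third
    have h2 : (s : ℝ) < 224 * 8 ^ J := by exact_mod_cast hJ1
    have h3 : (s : ℝ) * Z ≤ s * (448 * s ^ 2) := by
      calc (s : ℝ) * Z ≤ 224 * 8 ^ J * Z := mul_le_mul_of_nonneg_right h2.le (by positivity)
        _ = 224 * (8 ^ J * Z) := by ring
        _ ≤ 224 * (2 * s ^ 3) := by linarith
        _ = _ := by ring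
    exact le_of_mul_le_mul_left h3 (by linarith)
  have hn1 : 1 ≤ n := by
    rcases Nat.eq_zero_or_pos n with h | h
    · rw [h] at hlt
      simp at hlt
      linarith
    · exact h
  have mainR : (s : ℝ) * (n - 1) ≤ (∑ j ∈ range J, 8 ^ (j + 1) * (e j : ℝ)) + Z := by
    have h1 : ((s * (n - 1) : ℕ) : ℝ) ≤ (((∑ j ∈ range J, 8 ^ (j + 1) * e j) + Z : ℕ) : ℝ) :=
      Nat.cast_le.2 main
    rw [Nat.cast_mul, Nat.cast_sub hn1, Nat.cast_add, Nat.cast_sum] at h1
    simpa using h1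
  have first := first_bd n s J (fun j => (e j : ℝ)) hn0 (by linarith) hebd
  have f1 : 48 * (n : ℝ) * ((8 ^ J - 1) / 7) ≤ 48 * n * (s / 28 / 7) := by
    refine mul_le_mul_of_nonneg_left ?_ (by positivity)
    linarith
  have f2 : 448 * (s : ℝ) ^ 2 ≤ 448 * s * (n / 10 ^ 9) := by
    have h1 : (s : ℝ) ≤ n / 10 ^ 9 := by
      rw [le_div_iff₀ (by norm_num)]
      linarith
    calc 448 * (s : ℝ) ^ 2 = 448 * s * s := by ring
      _ ≤ _ := mul_le_mul_of_nonneg_left h1 (by positivity)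
  have f3 : (s : ℝ) * (n - 1) ≤ 48 * n * (s / 28 / 7) + 88 * (n * s / 1000) * 2 +
      448 * s * (n / 10 ^ 9) := by linarith
  have f4 : (s : ℝ) * (n - 1) ≤ s * (n / 2) := by
    have : 0 ≤ (s : ℝ) * n := by positivity
    nlinarith
  have f5 := le_of_mul_le_mul_left f4 (by linarith)
  linarith

theorem stmtB_of_A (hA : StmtA) : StmtB := by
  classical
  refine ⟨10 ^ 9, ?_⟩
  intro ι _ _ x y hx hnc A hne hev
  by_contra hlt
  push Not at hlt
  obtain ⟨m, hm⟩ : ∃ m : ℝ × ℝ → ℕ, m = fun p => (A ∩ T x y p).card := ⟨_, rfl⟩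
  obtain ⟨l, hl⟩ : ∃ l : ℝ × ℝ → ℕ, l = fun p => (T x y p).card - 1 := ⟨_, rfl⟩
  have hs1 : 1 ≤ A.card := hne.card_pos
  have c1 : A.card * (Fintype.card ι - 1) = ∑ p ∈ Ls x y, m p * l p := by
    have := cnt1 (y := y) hx A univ (subset_univ A)
    simpa [univ_inter, hm, hl] using this
  have c2 : ∑ p ∈ Ls x y, m p * (m p - 1) ≤ A.card ^ 2 := by
    have := cnt1 (y := y) hx A A (Subset.refl A)
    rw [hm, ← this, sq]
    exact Nat.mul_le_mul_left _ (Nat.sub_le _ _)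
  have hev' : ∀ p ∈ Ls x y, Even (m p) := fun p hp => by
    rw [hm]; exact two_le hx hev hp
  have hls : ∀ p, l p ≤ A.card := fun p => by
    rw [hl]
    exact (Nat.sub_le _ _).trans (line_card hx hev hne hnc p)
  obtain ⟨M, hM⟩ : ∃ M : ℕ → Finset (ℝ × ℝ), M = fun t => (Ls x y).filter fun p => t ≤ m p :=
    ⟨_, rfl⟩
  have hMm : ∀ t p, p ∈ M t ↔ p ∈ Ls x y ∧ t ≤ m p := by
    intro t p
    rw [hM]
    simp only [mem_filter]
  have hMsum : ∀ t, 1 ≤ t → ∑ p ∈ M t, m p ^ 2 ≤ 2 * A.card ^ 2 := by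
    intro t ht
    calc ∑ p ∈ M t, m p ^ 2 ≤ ∑ p ∈ M t, 2 * (m p * (m p - 1)) := by
          refine sum_le_sum fun p hp => ?_
          obtain ⟨hp1, hp2⟩ := (hMm t p).1 hp
          exact even_sq (hev' p hp1) ht hp2
      _ ≤ ∑ p ∈ Ls x y, 2 * (m p * (m p - 1)) :=
          sum_le_sum_of_subset fun p hp => ((hMm t p).1 hp).1
      _ = 2 * ∑ p ∈ Ls x y, m p * (m p - 1) := by rw [mul_sum]
      _ ≤ 2 * A.card ^ 2 := Nat.mul_le_mul_left _ c2
  have hMc : ∀ t, 1 ≤ t → (M t).card * t ^ 2 ≤ 2 * A.card ^ 2 := by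
    intro t ht
    refine le_trans ?_ (hMsum t ht)
    rw [← smul_eq_mul, ← sum_const]
    exact sum_le_sum fun p hp => Nat.pow_le_pow_left ((hMm t p).1 hp).2 2
  have hnR : (10 ^ 9 : ℝ) * A.card < Fintype.card ι := by exact_mod_cast hlt
  obtain ⟨e, he⟩ : ∃ e : ℕ → ℕ, ∀ j, e j = ∑ p ∈ M (8 ^ j), l p := ⟨_, fun _ => rfl⟩
  have hebd : ∀ j, (e j : ℝ) ≤ 6 * Fintype.card ι +
      11 * (Fintype.card ι * A.card / 1000) / 16 ^ j := by
    intro j
    rcases edge_bound hA hx (y := y) (M (8 ^ j)) with h | h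
    · have h' : e j ≤ 6 * Fintype.card ι := by rw [he, hl]; exact h
      have h'' : (e j : ℝ) ≤ 6 * Fintype.card ι := by exact_mod_cast h'
      have hpos : (0 : ℝ) ≤ 11 * (Fintype.card ι * A.card / 1000) / 16 ^ j := by positivity
      linarith
    · have h' : e j ^ 3 ≤ 288 * Fintype.card ι ^ 2 * (M (8 ^ j)).card ^ 2 := by
        rw [he, hl]; exact h
      have h1 := ebd _ _ _ _ j hnR h' (hMc (8 ^ j) (Nat.one_le_pow _ _ (by norm_num)))
      have : (0 : ℝ) ≤ 6 * Fintype.card ι := by positivity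
      linarith
  obtain ⟨J, hJ⟩ : ∃ J, J = Nat.log 8 (A.card / 28) := ⟨_, rfl⟩
  have hJ1 : A.card < 224 * 8 ^ J := by
    have h1 : A.card / 28 < 8 ^ (J + 1) := hJ ▸ Nat.lt_pow_succ_log_self (by norm_num) _
    rw [pow_succ] at h1
    omega
  have hJ2 : (8 : ℝ) ^ J - 1 ≤ A.card / 28 := by
    by_cases h : A.card / 28 = 0
    · rw [hJ, h]
      simp only [Nat.log_zero_right, pow_zero, sub_self]
      positivity
    · have h1 : 8 ^ J ≤ A.card / 28 := hJ ▸ Nat.pow_log_le_self 8 h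
      have h2 : 8 ^ J * 28 ≤ A.card := by omega
      have h3 : (8 : ℝ) ^ J * 28 ≤ A.card := by exact_mod_cast h2
      linarith
  have main : A.card * (Fintype.card ι - 1) ≤
      (∑ j ∈ range J, 8 ^ (j + 1) * e j) + ∑ p ∈ M (8 ^ J), m p * l p := by
    rw [c1]
    have h1 : ∀ j, 8 ^ (j + 1) * e j =
        ∑ p ∈ Ls x y, if 8 ^ j ≤ m p then 8 ^ (j + 1) * l p else 0 := by
      intro j
      rw [← sum_filter, he, mul_sum, hM]
    have h2 : ∑ p ∈ M (8 ^ J), m p * l p =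
        ∑ p ∈ Ls x y, if 8 ^ J ≤ m p then m p * l p else 0 := by
      rw [← sum_filter, hM]
    rw [sum_congr rfl fun j _ => h1 j, sum_comm, h2, ← sum_add_distrib]
    exact sum_le_sum fun p _ => layer _ _ _
  have third : 8 ^ J * ∑ p ∈ M (8 ^ J), m p * l p ≤ 2 * A.card ^ 3 := by
    calc 8 ^ J * ∑ p ∈ M (8 ^ J), m p * l p = ∑ p ∈ M (8 ^ J), 8 ^ J * (m p * l p) := by
          rw [mul_sum]
      _ ≤ ∑ p ∈ M (8 ^ J), m p ^ 2 * A.card := by
          refine sum_le_sum fun p hp => ?_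
          calc 8 ^ J * (m p * l p) ≤ m p * (m p * A.card) :=
                Nat.mul_le_mul ((hMm _ p).1 hp).2 (Nat.mul_le_mul_left _ (hls p))
            _ = m p ^ 2 * A.card := by ring
      _ = (∑ p ∈ M (8 ^ J), m p ^ 2) * A.card := by rw [sum_mul]
      _ ≤ 2 * A.card ^ 2 * A.card :=
          Nat.mul_le_mul_right _ (hMsum _ (Nat.one_le_pow _ _ (by norm_num)))
      _ = 2 * A.card ^ 3 := by ring
  exact fin_arith _ _ _ J e hs1 hnR hJ1 hJ2 hebd main third

end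

end Pool.Agent.R94.LS
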