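import Mathlib

/-! Uniqueness: an integrable function all of whose exponential moments against an injective
function vanish near `0` is zero almost everywhere. -/

set_option autoImplicit false

open MeasureTheory Set Filter Topology ProbabilityTheory

namespace Pool.Agent.R254

theorem ae_zero_of_expMoments {α : Type*} [MeasurableSpace α] {μ : Measure α} [IsFiniteMeasure μ]
    {g : α → ℝ} (hg : Integrable g μ) {X : α → ℝ} (hX : Measurable X) {Y : ℝ → α}
    (hY : Measurable Y) (hXY : ∀ᵐ a ∂μ, Y (X a) = a) {ε : ℝ} (hε : 0 < ε)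
    (hint : ∀ z ∈ Ioo (-ε) ε, Integrable (fun a => g a * Real.exp (z * X a)) μ)
    (hzero : ∀ z ∈ Ioo (-ε) ε, ∫ a, g a * Real.exp (z * X a) ∂μ = 0) : g =ᵐ[μ] 0 := by
  have key : ∀ g : α → ℝ, Integrable g μ →
      (∀ z ∈ Ioo (-ε) ε, Integrable (fun a => g a * Real.exp (z * X a)) μ) →
      IsFiniteMeasure (μ.withDensity fun a => ENNReal.ofReal (g a)) ∧
      (Ioo (-ε) ε ⊆ interior (integrableExpSet X (μ.withDensity fun a => ENNReal.ofReal (g a)))) ∧
      (∀ h : α → ℂ, ∫ a, h a ∂(μ.withDensity fun a => ENNReal.ofReal (g a)) =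
        ∫ a, ((max (g a) 0 : ℝ) : ℂ) * h a ∂μ) := by
    intro g hg hint
    have hm : AEMeasurable (fun a => ENNReal.ofReal (g a)) μ := hg.aemeasurable.ennreal_ofReal
    have hlt : ∀ᵐ a ∂μ, ENNReal.ofReal (g a) < ⊤ := ae_of_all _ fun a => ENNReal.ofReal_lt_top
    refine ⟨isFiniteMeasure_withDensity_ofReal hg.2, ?_, ?_⟩
    · rw [isOpen_Ioo.subset_interior_iff]
      intro z hz
      show Integrable (fun a => Real.exp (z * X a)) _
      rw [integrable_withDensity_iff_integrable_smul₀' hm hlt]
      refine (hint z hz).mono ?_ ?_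
      · exact (hm.ennreal_toReal.aestronglyMeasurable).smul
          (Real.measurable_exp.comp (measurable_const.mul hX)).aestronglyMeasurable
      · refine ae_of_all _ fun a => ?_
        rw [smul_eq_mul, norm_mul, norm_mul]
        refine mul_le_mul_of_nonneg_right ?_ (norm_nonneg _)
        rw [ENNReal.toReal_ofReal', Real.norm_eq_abs, Real.norm_eq_abs, abs_of_nonneg (le_max_right _ _)]
        exact max_le (le_abs_self _) (abs_nonneg _)
    · intro h
      rw [integral_withDensity_eq_integral_toReal_smul₀ hm hlt]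
      refine integral_congr_ae (ae_of_all _ fun a => ?_)
      simp only [ENNReal.toReal_ofReal']
      rw [Complex.real_smul]
  obtain ⟨f1, s1, i1⟩ := key g hg hint
  obtain ⟨f2, s2, i2⟩ := key (fun a => -g a) hg.neg (fun z hz => by
    have := (hint z hz).neg
    refine this.congr (ae_of_all _ fun a => ?_)
    simp)
  set μ₁ := μ.withDensity fun a => ENNReal.ofReal (g a) with hμ₁
  set μ₂ := μ.withDensity fun a => ENNReal.ofReal (-g a) with hμ₂
  have hreal : ∀ z ∈ Ioo (-ε) ε, complexMGF X μ₁ z = complexMGF X μ₂ z := by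
    intro z hz
    have e1 : complexMGF X μ₁ z = ∫ a, ((max (g a) 0 * Real.exp (z * X a) : ℝ) : ℂ) ∂μ := by
      rw [complexMGF, i1]
      refine integral_congr_ae (ae_of_all _ fun a => ?_)
      push_cast; rfl
    have e2 : complexMGF X μ₂ z = ∫ a, ((max (-g a) 0 * Real.exp (z * X a) : ℝ) : ℂ) ∂μ := by
      rw [complexMGF, i2]
      refine integral_congr_ae (ae_of_all _ fun a => ?_)
      push_cast; rfl
    have hI1 : Integrable (fun a => max (g a) 0 * Real.exp (z * X a)) μ := by
      refine (hint z hz).mono ?_ ?_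
      · refine AEStronglyMeasurable.mul ?_ ?_
        · exact (hg.aemeasurable.max aemeasurable_const).aestronglyMeasurable
        · exact (Real.measurable_exp.comp (measurable_const.mul hX)).aestronglyMeasurable
      · refine ae_of_all _ fun a => ?_
        rw [norm_mul, norm_mul]
        refine mul_le_mul_of_nonneg_right ?_ (norm_nonneg _)
        rw [Real.norm_eq_abs, Real.norm_eq_abs, abs_of_nonneg (le_max_right _ _)]
        exact max_le (le_abs_self _) (abs_nonneg _)
    have hI2 : Integrable (fun a => max (-g a) 0 * Real.exp (z * X a)) μ := by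
      refine (hint z hz).mono ?_ ?_
      · refine AEStronglyMeasurable.mul ?_ ?_
        · exact (hg.aemeasurable.neg.max aemeasurable_const).aestronglyMeasurable
        · exact (Real.measurable_exp.comp (measurable_const.mul hX)).aestronglyMeasurable
      · refine ae_of_all _ fun a => ?_
        rw [norm_mul, norm_mul]
        refine mul_le_mul_of_nonneg_right ?_ (norm_nonneg _)
        rw [Real.norm_eq_abs, Real.norm_eq_abs, abs_of_nonneg (le_max_right _ _)]
        exact max_le (neg_le_abs _) (abs_nonneg _)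
    rw [e1, e2, integral_complex_ofReal, integral_complex_ofReal]
    congr 1
    have : ∫ a, (max (g a) 0 * Real.exp (z * X a) - max (-g a) 0 * Real.exp (z * X a)) ∂μ = 0 := by
      refine Eq.trans (integral_congr_ae (ae_of_all _ fun a => ?_)) (hzero z hz)
      simp only
      rw [← sub_mul]
      congr 1
      rcases le_total 0 (g a) with h | h
      · rw [max_eq_left h, max_eq_right (by linarith)]; ring
      · rw [max_eq_right h, max_eq_left (by linarith)]; ring
    rw [integral_sub hI1 hI2] at this
    linarith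
  have hstrip : Set.EqOn (complexMGF X μ₁) (complexMGF X μ₂) {z : ℂ | z.re ∈ Ioo (-ε) ε} := by
    have hX1 : AnalyticOnNhd ℂ (complexMGF X μ₁) {z | z.re ∈ Ioo (-ε) ε} :=
      analyticOnNhd_complexMGF.mono fun z hz => s1 hz
    have hX2 : AnalyticOnNhd ℂ (complexMGF X μ₂) {z | z.re ∈ Ioo (-ε) ε} :=
      analyticOnNhd_complexMGF.mono fun z hz => s2 hz
    refine AnalyticOnNhd.eqOn_of_preconnected_of_frequently_eq hX1 hX2
      ((convex_Ioo (-ε) ε).linear_preimage Complex.reLm).isPreconnected
      (z₀ := (0 : ℂ)) (by simp [hε]) ?_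
    have h_real : ∃ᶠ (x : ℝ) in 𝓝[≠] (0:ℝ), complexMGF X μ₁ x = complexMGF X μ₂ x := by
      apply Eventually.frequently
      apply eventually_nhdsWithin_of_eventually_nhds
      filter_upwards [Ioo_mem_nhds (by linarith : -ε < 0) hε] with x hx
      exact hreal x hx
    rw [frequently_iff_seq_forall] at h_real ⊢
    obtain ⟨xs, hx_tendsto, hx_eq⟩ := h_real
    refine ⟨fun n ↦ xs n, ?_, fun n ↦ ?_⟩
    · rw [tendsto_nhdsWithin_iff] at hx_tendsto ⊢
      constructor
      · have := (Complex.continuous_ofReal.tendsto 0).comp hx_tendsto.1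
        rw [Complex.ofReal_zero] at this
        exact this
      · simpa using hx_tendsto.2
    · simp [hx_eq]
  have hmap : μ₁.map X = μ₂.map X := by
    apply Measure.ext_of_charFun
    funext t
    rw [← complexMGF_mul_I hX.aemeasurable, ← complexMGF_mul_I hX.aemeasurable]
    apply hstrip
    simp [hε]
  have hback : ∀ ν : Measure α, ν ≪ μ → (ν.map X).map Y = ν := by
    intro ν hν
    rw [Measure.map_map hY hX]
    have : (Y ∘ X) =ᵐ[ν] id := hν.ae_le hXY
    rw [Measure.map_congr this, Measure.map_id]
  have heq : μ₁ = μ₂ := by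
    rw [← hback μ₁ (withDensity_absolutelyContinuous _ _), hmap,
      hback μ₂ (withDensity_absolutelyContinuous _ _)]
  rw [hμ₁, hμ₂] at heq
  replace heq := (withDensity_eq_iff_of_sigmaFinite hg.aemeasurable.ennreal_ofReal
    hg.aemeasurable.neg.ennreal_ofReal).1 heq
  filter_upwards [heq] with a ha
  have h1 := congrArg ENNReal.toReal ha
  rw [ENNReal.toReal_ofReal', ENNReal.toReal_ofReal', Pi.neg_apply] at h1
  rcases le_total 0 (g a) with h | h
  · rw [max_eq_left h, max_eq_right (by linarith)] at h1
    simpa using h1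
  · rw [max_eq_right h, max_eq_left (by linarith)] at h1
    show g a = 0
    linarith

/-- complex version -/
theorem ae_zero_of_expMoments_complex {α : Type*} [MeasurableSpace α] {μ : Measure α}
    [IsFiniteMeasure μ]
    {g : α → ℂ} (hg : Integrable g μ) {X : α → ℝ} (hX : Measurable X) {Y : ℝ → α}
    (hY : Measurable Y) (hXY : ∀ᵐ a ∂μ, Y (X a) = a) {ε : ℝ} (hε : 0 < ε)
    (hint : ∀ z ∈ Ioo (-ε) ε, Integrable (fun a => g a * (Real.exp (z * X a) : ℂ)) μ)
    (hzero : ∀ z ∈ Ioo (-ε) ε, ∫ a, g a * (Real.exp (z * X a) : ℂ) ∂μ = 0) : g =ᵐ[μ] 0 := by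
  have hre : (fun a => (g a).re) =ᵐ[μ] 0 := by
    refine ae_zero_of_expMoments hg.re hX hY hXY hε (fun z hz => ?_) (fun z hz => ?_)
    · refine (hint z hz).re.congr (ae_of_all _ fun a => ?_)
      show (g a * (Real.exp (z * X a) : ℂ)).re = _
      rw [Complex.re_mul_ofReal]
    · have h1 := congrArg Complex.re (hzero z hz)
      have h2 := integral_re (hint z hz)
      rw [Complex.zero_re] at h1
      refine Eq.trans ?_ (h2.trans h1)
      refine integral_congr_ae (ae_of_all _ fun a => ?_)
      show _ = (g a * (Real.exp (z * X a) : ℂ)).re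
      rw [Complex.re_mul_ofReal]
  have him : (fun a => (g a).im) =ᵐ[μ] 0 := by
    refine ae_zero_of_expMoments hg.im hX hY hXY hε (fun z hz => ?_) (fun z hz => ?_)
    · refine (hint z hz).im.congr (ae_of_all _ fun a => ?_)
      show (g a * (Real.exp (z * X a) : ℂ)).im = _
      rw [Complex.im_mul_ofReal]
    · have h1 := congrArg Complex.im (hzero z hz)
      have h2 := integral_im (hint z hz)
      rw [Complex.zero_im] at h1
      refine Eq.trans ?_ (h2.trans h1)
      refine integral_congr_ae (ae_of_all _ fun a => ?_)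
      show _ = (g a * (Real.exp (z * X a) : ℂ)).im
      rw [Complex.im_mul_ofReal]
  filter_upwards [hre, him] with a h1 h2
  exact Complex.ext h1 h2

end Pool.Agent.R254
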