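import Mathlib
import Pool.Agent.R254.Jet
import Pool.Agent.R254.JetPoly
import Pool.Agent.R254.SigmaFam

set_option autoImplicit false

open Complex Metric Set Filter Topology

namespace Pool.Agent.R254

lemma sq_ne_of_re_pos {a b : ℂ} (ha : 0 < a.re) (hb : 0 < b.re) (h : a ^ 2 = b ^ 2) : a = b := by
  have h1 : (a - b) * (a + b) = 0 := by linear_combination h
  rcases mul_eq_zero.mp h1 with h2 | h2
  · exact sub_eq_zero.mp h2
  · exfalso
    have := congrArg Complex.re h2
    simp at this; linarith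

/-- One slit map of the disk into itself: it conjugates multiplication by `ρ` through the
rotated Koebe function. -/
theorem slit_step {κ : ℂ} (hκ : ‖κ‖ = 1) {ρ : ℝ} (h0 : 0 < ρ) (h1 : ρ < 1) :
    ∃ φ : ℂ → ℂ, DifferentiableOn ℂ φ (ball 0 1) ∧ InjOn φ (ball 0 1) ∧
      MapsTo φ (ball 0 1) (ball 0 1) ∧ φ 0 = 0 ∧
      ∀ z ∈ ball (0:ℂ) 1, φ z * (1 - κ * z)^2 = ρ * z * (1 - κ * φ z)^2 := by
  have hκ0 : κ ≠ 0 := by
    intro h; rw [h] at hκ; simp at hκ
  have hκz : ∀ z ∈ ball (0:ℂ) 1, κ * z ∈ ball (0:ℂ) 1 := by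
    intro z hz
    rw [mem_ball_zero_iff] at hz ⊢
    rw [norm_mul, hκ, one_mul]; exact hz
  have hw : ∀ z ∈ ball (0:ℂ) 1, 0 < ((1 + κ * z) / (1 - κ * z)).re := fun z hz =>
    cayley_re (by simpa using hκz z hz)
  let X : ℂ → ℂ := fun z => ((1 - ρ : ℝ) : ℂ) + (ρ:ℂ) * ((1 + κ * z) / (1 - κ * z))^2
  let r : ℂ → ℂ := fun z => (X z) ^ ((2:ℂ)⁻¹)
  have hX : ∀ z ∈ ball (0:ℂ) 1, X z ∈ slitPlane := by
    intro z hz
    have hp := hw z hz
    set w := (1 + κ * z) / (1 - κ * z) with hwdef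
    have hXe : X z = ((1 - ρ : ℝ) : ℂ) + (ρ:ℂ) * w^2 := rfl
    have hre : (X z).re = (1 - ρ) + ρ * (w.re * w.re - w.im * w.im) := by
      rw [hXe, pow_two, Complex.add_re, Complex.ofReal_re, Complex.re_ofReal_mul, Complex.mul_re]
    have him : (X z).im = ρ * (w.re * w.im + w.im * w.re) := by
      rw [hXe, pow_two, Complex.add_im, Complex.ofReal_im, Complex.im_ofReal_mul, Complex.mul_im]
      ring
    rw [Complex.mem_slitPlane_iff]
    by_cases hb : w.im = 0
    · left
      rw [hre, hb]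
      have : 0 < ρ * (w.re * w.re) := by positivity
      nlinarith
    · right
      rw [him]
      have : ρ * (w.re * w.im + w.im * w.re) = 2 * ρ * w.re * w.im := by ring
      rw [this]
      exact mul_ne_zero (by positivity) hb
  have hr2 : ∀ z, r z ^ 2 = X z := by
    intro z
    have := Complex.cpow_ofNat_inv_pow (X z) (n := 2)
    simpa [r] using this
  have hrre : ∀ z ∈ ball (0:ℂ) 1, 0 < (r z).re := by
    intro z hz
    simp only [r]
    rw [Complex.cpow_inv_two_re]
    apply Real.sqrt_pos.mpr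
    have hs := hX z hz
    have : 0 < ‖X z‖ + (X z).re := by
      rw [Complex.mem_slitPlane_iff] at hs
      rcases hs with h | h
      · have := norm_nonneg (X z); linarith
      · have := Complex.abs_re_lt_norm.mpr h
        have h2 := neg_abs_le (X z).re
        linarith
    linarith
  have hr1 : ∀ z ∈ ball (0:ℂ) 1, r z + 1 ≠ 0 := by
    intro z hz h
    have := congrArg Complex.re h
    have h2 := hrre z hz
    simp at this; linarith
  have hXd : ∀ z ∈ ball (0:ℂ) 1, DifferentiableAt ℂ X z := by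
    intro z hz
    have hne : 1 - κ * z ≠ 0 := one_sub_ne (hκz z hz)
    have : DifferentiableAt ℂ (fun z => (1 + κ * z) / (1 - κ * z)) z :=
      DifferentiableAt.div (by fun_prop) (by fun_prop) hne
    exact ((this.pow 2).const_mul _).const_add _
  have hrd : ∀ z ∈ ball (0:ℂ) 1, DifferentiableAt ℂ r z := by
    intro z hz
    exact (hXd z hz).cpow (differentiableAt_const _) (hX z hz)
  have hκφ : ∀ z, κ * (κ⁻¹ * ((r z - 1) / (r z + 1))) = (r z - 1) / (r z + 1) := by
    intro z; rw [← mul_assoc, mul_inv_cancel₀ hκ0, one_mul]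
  refine ⟨fun z => κ⁻¹ * ((r z - 1) / (r z + 1)), ?_, ?_, ?_, ?_, ?_⟩
  · intro z hz
    exact ((((hrd z hz).sub_const 1).div ((hrd z hz).add_const 1) (hr1 z hz)).const_mul _).differentiableWithinAt
  · intro z₁ hz₁ z₂ hz₂ heq
    simp only at heq
    have e1 : (r z₁ - 1) / (r z₁ + 1) = (r z₂ - 1) / (r z₂ + 1) :=
      mul_left_cancel₀ (inv_ne_zero hκ0) heq
    rw [div_eq_div_iff (hr1 _ hz₁) (hr1 _ hz₂)] at e1
    have e2 : r z₁ = r z₂ := by linear_combination (1/2) * e1
    have e3 : X z₁ = X z₂ := by rw [← hr2, ← hr2, e2]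
    have hρ : (ρ:ℂ) ≠ 0 := by exact_mod_cast h0.ne'
    have e4 : ((1 + κ * z₁) / (1 - κ * z₁))^2 = ((1 + κ * z₂) / (1 - κ * z₂))^2 := by
      simp only [X] at e3
      exact mul_left_cancel₀ hρ (add_left_cancel e3)
    have e5 := sq_ne_of_re_pos (hw _ hz₁) (hw _ hz₂) e4
    have n1 : 1 - κ * z₁ ≠ 0 := one_sub_ne (hκz _ hz₁)
    have n2 : 1 - κ * z₂ ≠ 0 := one_sub_ne (hκz _ hz₂)
    rw [div_eq_div_iff n1 n2] at e5
    have e6 : κ * z₁ = κ * z₂ := by linear_combination (1/2) * e5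
    exact mul_left_cancel₀ hκ0 e6
  · intro z hz
    rw [mem_ball_zero_iff, norm_mul, norm_inv, hκ, inv_one, one_mul, norm_div,
      div_lt_one (norm_pos_iff.mpr (hr1 z hz))]
    rw [← sq_lt_sq₀ (norm_nonneg _) (norm_nonneg _), ← Complex.normSq_eq_norm_sq, ← Complex.normSq_eq_norm_sq]
    have := hrre z hz
    simp [normSq_apply]
    nlinarith
  · have : X 0 = 1 := by simp [X]
    simp [r, this]
  · intro z hz
    simp only
    have hne := hr1 z hz
    have hz1 : 1 - κ * z ≠ 0 := one_sub_ne (hκz z hz)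
    rw [hκφ]
    have hx := hr2 z
    simp only [X] at hx
    have e1 : 1 - (r z - 1) / (r z + 1) = 2 / (r z + 1) := by field_simp; ring
    rw [e1]
    have hx2 : r z ^ 2 * (1 - κ * z)^2 = (1 - ρ) * (1 - κ * z)^2 + ρ * (1 + κ * z)^2 := by
      rw [hx]; push_cast; field_simp
    have e2 : (r z ^ 2 - 1) * (1 - κ * z)^2 = 4 * (ρ * κ * z) := by
      linear_combination hx2
    field_simp
    linear_combination e2

end Pool.Agent.R254
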