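import Mathlib
import Pool.Agent.R254.Jet
import Pool.Agent.R254.JetPoly
import Pool.Agent.R254.SlitStep

set_option autoImplicit false

open Complex Metric Set Filter Topology

namespace Pool.Agent.R254

/-- A univalent self map of the disk fixing the origin. -/
structure Chain (A : ℂ → ℂ) : Prop where
  diff : DifferentiableOn ℂ A (ball 0 1)
  inj : InjOn A (ball 0 1)
  maps : MapsTo A (ball 0 1) (ball 0 1)
  zero : A 0 = 0

lemma Chain.id : Chain (fun z => z) :=
  ⟨differentiableOn_id, fun _ _ _ _ h => h, fun _ h => h, rfl⟩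

/-- convolution of coefficient sequences -/
noncomputable def cv (a b : ℕ → ℂ) (n : ℕ) : ℂ := ∑ i ∈ Finset.range (n + 1), a i * b (n - i)

/-- the third factor -/
noncomputable def ef (κ ρ : ℂ) (a b : ℕ → ℂ) (n : ℕ) : ℂ :=
  (if n = 0 then 2 * κ * (1 - ρ) else 0) - κ ^ 2 * a n + ρ * κ ^ 2 * b n

theorem chain_step {A : ℂ → ℂ} (hA : Chain A) {κ : ℂ} (hκ : ‖κ‖ = 1) {ρ : ℝ} (h0 : 0 < ρ) (h1 : ρ < 1) :
    ∃ B : ℂ → ℂ, Chain B ∧ ∀ n, tc B n = ρ * tc A n + cv (cv (tc A) (tc B)) (ef κ ρ (tc A) (tc B)) n := by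
  obtain ⟨φ, p1, p2, p3, p4, p5⟩ := slit_step hκ h0 h1
  have hB : Chain (fun z => φ (A z)) :=
    ⟨p1.comp hA.diff hA.maps, p2.comp hA.inj hA.maps, p3.comp hA.maps, by simp only [hA.zero, p4]⟩
  refine ⟨fun z => φ (A z), hB, ?_⟩
  intro n
  set B : ℂ → ℂ := fun z => φ (A z) with hBdef
  have hrel : ∀ z ∈ ball (0:ℂ) 1, B z = ρ * A z + (A z * B z) *
      ((2 * κ * (1 - ρ)) + ((-κ^2) * A z + (ρ * κ^2) * B z)) := by
    intro z hz
    have := p5 _ (hA.maps hz)
    simp only [hBdef]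
    linear_combination this
  have hAB : DifferentiableOn ℂ (fun z => A z * B z) (ball 0 1) := hA.diff.mul hB.diff
  have hc : DifferentiableOn ℂ (fun _ : ℂ => (2 * κ * (1 - ρ) : ℂ)) (ball 0 1) := differentiableOn_const _
  have hE1 : DifferentiableOn ℂ (fun z => (-κ^2) * A z) (ball 0 1) := hA.diff.const_mul _
  have hE2 : DifferentiableOn ℂ (fun z => (ρ * κ^2) * B z) (ball 0 1) := hB.diff.const_mul _
  have hE3 : DifferentiableOn ℂ (fun z => (-κ^2) * A z + (ρ * κ^2) * B z) (ball 0 1) := hE1.add hE2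
  have hE : DifferentiableOn ℂ (fun z => (2 * κ * (1 - ρ)) + ((-κ^2) * A z + (ρ * κ^2) * B z)) (ball 0 1) :=
    hc.add hE3
  have hρA : DifferentiableOn ℂ (fun z => (ρ:ℂ) * A z) (ball 0 1) := hA.diff.const_mul _
  have hABE : DifferentiableOn ℂ (fun z => (A z * B z) *
      ((2 * κ * (1 - ρ)) + ((-κ^2) * A z + (ρ * κ^2) * B z))) (ball 0 1) := hAB.mul hE
  have e : B =ᶠ[𝓝 0] fun z => ρ * A z + (A z * B z) *
      ((2 * κ * (1 - ρ)) + ((-κ^2) * A z + (ρ * κ^2) * B z)) := by
    filter_upwards [ball_mem_nhds (0:ℂ) one_pos] with z hz using hrel z hz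
  rw [tc_congr e, tc_add hρA hABE, tc_const_mul, tc_mul hAB hE]
  congr 1
  unfold cv ef
  apply Finset.sum_congr rfl
  intro i _
  have t1 : tc (fun z => (-κ^2) * A z) (n - i) = (-κ^2) * tc A (n-i) := tc_const_mul _ _
  have t2 : tc (fun z => (ρ * κ^2) * B z) (n - i) = (ρ * κ^2) * tc B (n-i) := tc_const_mul _ _
  have t3 : tc (fun _ : ℂ => (2 * κ * (1 - ρ) : ℂ)) (n - i) = if n - i = 0 then 2 * κ * (1 - ρ) else 0 :=
    tc_const _ _
  rw [tc_mul hA.diff hB.diff, tc_add hc hE3, tc_add hE1 hE2, t1, t2, t3]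
  congr 1
  ring

/-- From a chain to a member of the exterior class. -/
theorem sigma_of_chain {G : ℂ → ℂ} (hG : Chain G) {T : ℝ} (hT : (T:ℂ) * tc G 1 = 1) :
    ∃ f : ℂ → ℂ, ∃ b : ℕ → ℂ,
      DifferentiableOn ℂ f {z : ℂ | 1 < ‖z‖} ∧ InjOn f {z : ℂ | 1 < ‖z‖} ∧
      (∀ z : ℂ, 1 < ‖z‖ → HasSum (fun k : ℕ => b k * (z⁻¹)^k) (f z - z)) ∧
      ∃ c : ℕ → ℂ, c 0 = 1 ∧ (∀ k, b k = c (k+1)) ∧
        ∀ n, T * cv c (fun k => tc G (k+1)) n =
          (if n = 0 then 1 else 0) - 2 * tc G n + cv (tc G) (tc G) n := by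
  have hTne : (T:ℂ) ≠ 0 := by
    intro h; rw [h, zero_mul] at hT; exact zero_ne_one hT
  have hzero : (0:ℂ) ∈ ball (0:ℂ) 1 := mem_ball_self one_pos
  have hGd : ∀ z ∈ ball (0:ℂ) 1, HasDerivAt G (deriv G z) z := fun z hz =>
    (hG.diff.differentiableAt (isOpen_ball.mem_nhds hz)).hasDerivAt
  have hG1 : ∀ z ∈ ball (0:ℂ) 1, 1 - G z ≠ 0 := fun z hz => one_sub_ne (hG.maps hz)
  have hgd0 : deriv G 0 = tc G 1 := by
    simp [tc]
  let h : ℂ → ℂ := fun z => T * (G z / (1 - G z)^2)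
  let h' : ℂ → ℂ := fun z => T * ((deriv G z * (1 - G z)^2 - G z * (2 * (1 - G z) * (-deriv G z))) / ((1 - G z)^2)^2)
  have hder : ∀ z ∈ ball (0:ℂ) 1, HasDerivAt h (h' z) z := by
    intro z hz
    have h1 := hGd z hz
    have h2 : HasDerivAt (fun z => (1 - G z)^2) (2 * (1 - G z) * (-deriv G z)) z := by
      have h3 := (h1.const_sub 1).pow 2
      have e5 : (2:ℂ) * (1 - G z) * (-deriv G z) = ((2:ℕ):ℂ) * (1 - G z) ^ (2 - 1) * (-deriv G z) := by
        simp
      rw [e5]
      exact h3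
    exact (h1.div h2 (pow_ne_zero _ (hG1 z hz))).const_mul _
  have hh0 : h 0 = 0 := by simp [h, hG.zero]
  have hh'0 : h' 0 = 1 := by
    simp only [h', hG.zero, hgd0]
    linear_combination hT
  have hinj : InjOn h (ball 0 1) := by
    intro z₁ hz₁ z₂ hz₂ heq
    have e1 := mul_left_cancel₀ hTne heq
    have n1 := hG1 _ hz₁
    have n2 := hG1 _ hz₂
    rw [div_eq_div_iff (pow_ne_zero _ n1) (pow_ne_zero _ n2)] at e1
    have e2 : (G z₁ - G z₂) * (1 - G z₁ * G z₂) = 0 := by linear_combination e1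
    rcases mul_eq_zero.mp e2 with e3 | e3
    · exact hG.inj hz₁ hz₂ (sub_eq_zero.mp e3)
    · exfalso
      have hm : G z₁ * G z₂ ∈ ball (0:ℂ) 1 := by
        have a := hG.maps hz₁
        have b := hG.maps hz₂
        rw [mem_ball_zero_iff] at a b ⊢
        rw [norm_mul]
        exact mul_lt_one_of_nonneg_of_lt_one_left (norm_nonneg _) a b.le
      exact one_sub_ne hm e3
  obtain ⟨q, hq, q0, hqne, hhq, htq⟩ := exists_quot hh0 hh'0 hder hinj
  have hΦ : DifferentiableOn ℂ (fun z => (q z)⁻¹) (ball 0 1) := hq.inv hqne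
  have hroot : ∀ z ∈ ball (0:ℂ) 1, ((q z)⁻¹)^1 * q z = 1 := by
    intro z hz; rw [pow_one]; exact inv_mul_cancel₀ (hqne z hz)
  obtain ⟨s1, s2, s3⟩ := sigma_of_root (m := 1) one_ne_zero (fun z _ => hhq z) hinj hΦ (by simp [q0]) hroot
  refine ⟨_, _, s1, s2, s3, fun k => tc (fun z => (q z)⁻¹) k, ?_, ?_, ?_⟩
  · simp [tc_zero, q0]
  · intro k; simp
  · intro n
    -- G = z g
    have hgq : DifferentiableOn ℂ (dslope G 0) (ball 0 1) :=
      (differentiableOn_dslope (ball_mem_nhds _ one_pos)).mpr hG.diff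
    have hGq : ∀ z, G z = z * dslope G 0 z := by
      intro z
      have := sub_smul_dslope G 0 z
      simp only [sub_zero, smul_eq_mul, hG.zero] at this
      exact this.symm
    have htG : ∀ k, tc G (k+1) = tc (dslope G 0) k := by
      intro k
      have e : G = fun z => z * dslope G 0 z := funext hGq
      have : tc G (k+1) = tc (fun z => z * dslope G 0 z) (k+1) := by rw [← e]
      rw [this, tc_shift hgq]
    have hrel : ∀ z ∈ ball (0:ℂ) 1, T * ((q z)⁻¹ * dslope G 0 z) = 1 + (-2 * G z + G z * G z) := by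
      intro z hz
      by_cases hz0 : z = 0
      · subst hz0
        rw [q0, hG.zero]
        have : dslope G 0 0 = tc G 1 := by rw [dslope_same, hgd0]
        rw [this]
        simp only [inv_one, one_mul, mul_zero, add_zero]
        exact hT
      · have e1 := hhq z
        have e2 := hGq z
        have n1 := hG1 z hz
        have n2 := hqne z hz
        simp only [h] at e1
        have e3 : T * G z = z * q z * (1 - G z)^2 := by
          rw [← e1]; field_simp
        have e4 : z * (T * dslope G 0 z) = z * (q z * (1 - G z)^2) := by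
          calc z * (T * dslope G 0 z) = T * (z * dslope G 0 z) := by ring
            _ = T * G z := by rw [← e2]
            _ = z * (q z * (1 - G z)^2) := by rw [e3]; ring
        have e5 := mul_left_cancel₀ hz0 e4
        calc T * ((q z)⁻¹ * dslope G 0 z) = (q z)⁻¹ * (T * dslope G 0 z) := by ring
          _ = (q z)⁻¹ * (q z * (1 - G z)^2) := by rw [e5]
          _ = (1 - G z)^2 := by rw [← mul_assoc, inv_mul_cancel₀ n2, one_mul]
          _ = _ := by ring
    have c1 : cv (fun k => tc (fun z => (q z)⁻¹) k) (fun k => tc G (k+1)) n =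
        tc (fun z => (q z)⁻¹ * dslope G 0 z) n := by
      rw [tc_mul hΦ hgq]
      unfold cv
      apply Finset.sum_congr rfl
      intro i _
      simp only [htG]
    rw [c1, ← tc_const_mul]
    have e : (fun z => (T:ℂ) * ((q z)⁻¹ * dslope G 0 z)) =ᶠ[𝓝 0] fun z => 1 + (-2 * G z + G z * G z) := by
      filter_upwards [ball_mem_nhds (0:ℂ) one_pos] with z hz using hrel z hz
    have hGG : DifferentiableOn ℂ (fun z => G z * G z) (ball 0 1) := hG.diff.mul hG.diff
    have h2G : DifferentiableOn ℂ (fun z => -2 * G z) (ball 0 1) := hG.diff.const_mul _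
    have hsum : DifferentiableOn ℂ (fun z => -2 * G z + G z * G z) (ball 0 1) := h2G.add hGG
    rw [tc_congr e, tc_add (differentiableOn_const _) hsum, tc_add h2G hGG, tc_const_mul, tc_const,
      tc_mul hG.diff hG.diff]
    unfold cv
    ring

end Pool.Agent.R254
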