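import Mathlib
import Pool.Agent.R254.SlitChain

set_option autoImplicit false
set_option maxHeartbeats 4000000

open Complex Metric Set Filter Topology

namespace Pool.Agent.R254

/-- Explicit form of the coefficient recursion. -/
lemma chain_vals {a b : ℕ → ℂ} {κ ρ : ℂ} (a0 : a 0 = 0) (b0 : b 0 = 0)
    (h : ∀ n, b n = ρ * a n + cv (cv a b) (ef κ ρ a b) n) :
    b 1 = ρ * a 1 ∧
    b 2 = ρ * a 2 + (a 1 * b 1) * (2 * κ * (1 - ρ)) ∧
    b 3 = ρ * a 3 + (a 1 * b 2 + a 2 * b 1) * (2 * κ * (1 - ρ))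
      + (a 1 * b 1) * (κ ^ 2 * (ρ * b 1 - a 1)) ∧
    b 4 = ρ * a 4 + (a 1 * b 3 + a 2 * b 2 + a 3 * b 1) * (2 * κ * (1 - ρ))
      + (a 1 * b 2 + a 2 * b 1) * (κ ^ 2 * (ρ * b 1 - a 1))
      + (a 1 * b 1) * (κ ^ 2 * (ρ * b 2 - a 2)) ∧
    b 5 = ρ * a 5 + (a 1 * b 4 + a 2 * b 3 + a 3 * b 2 + a 4 * b 1) * (2 * κ * (1 - ρ))
      + (a 1 * b 3 + a 2 * b 2 + a 3 * b 1) * (κ ^ 2 * (ρ * b 1 - a 1))
      + (a 1 * b 2 + a 2 * b 1) * (κ ^ 2 * (ρ * b 2 - a 2))
      + (a 1 * b 1) * (κ ^ 2 * (ρ * b 3 - a 3)) ∧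
    b 6 = ρ * a 6 + (a 1 * b 5 + a 2 * b 4 + a 3 * b 3 + a 4 * b 2 + a 5 * b 1) * (2 * κ * (1 - ρ))
      + (a 1 * b 4 + a 2 * b 3 + a 3 * b 2 + a 4 * b 1) * (κ ^ 2 * (ρ * b 1 - a 1))
      + (a 1 * b 3 + a 2 * b 2 + a 3 * b 1) * (κ ^ 2 * (ρ * b 2 - a 2))
      + (a 1 * b 2 + a 2 * b 1) * (κ ^ 2 * (ρ * b 3 - a 3))
      + (a 1 * b 1) * (κ ^ 2 * (ρ * b 4 - a 4)) := by
  refine ⟨?_, ?_, ?_, ?_, ?_, ?_⟩
  · rw [h 1]; simp [cv, ef, Finset.sum_range_succ, a0, b0]
  · rw [h 2]; simp [cv, ef, Finset.sum_range_succ, a0, b0]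
  · rw [h 3]; simp [cv, ef, Finset.sum_range_succ, a0, b0]; ring
  · rw [h 4]; simp [cv, ef, Finset.sum_range_succ, a0, b0]; ring
  · rw [h 5]; simp [cv, ef, Finset.sum_range_succ, a0, b0]; ring
  · rw [h 6]; simp [cv, ef, Finset.sum_range_succ, a0, b0]; ring

lemma id_vals : tc (fun z => z) 0 = 0 ∧ tc (fun z => z) 1 = (⟨1, 0⟩ : ℂ) ∧
    tc (fun z => z) 2 = (⟨0, 0⟩ : ℂ) ∧ tc (fun z => z) 3 = (⟨0, 0⟩ : ℂ) ∧
    tc (fun z => z) 4 = (⟨0, 0⟩ : ℂ) ∧ tc (fun z => z) 5 = (⟨0, 0⟩ : ℂ) ∧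
    tc (fun z => z) 6 = (⟨0, 0⟩ : ℂ) := by
  refine ⟨?_, ?_, ?_, ?_, ?_, ?_, ?_⟩ <;> rw [tc_id] <;> simp [Complex.ext_iff]

lemma stage_1 : ∃ G : ℂ → ℂ, Chain G ∧ tc G 0 = 0 ∧
    tc G 1 = (⟨11/12, 0⟩ : ℂ) ∧
    tc G 2 = (⟨55/408, -11/153⟩ : ℂ) ∧
    tc G 3 = (⟨-33649/499392, 1045/10404⟩ : ℂ) ∧
    tc G 4 = (⟨47795/5659776, -530959/6367248⟩ : ℂ) ∧
    tc G 5 = (⟨20559671/1154594304, 522445/12027024⟩ : ℂ) ∧
    tc G 6 = (⟨-1391201075/117768619008, -432164557/44163232128⟩ : ℂ) := by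
  obtain ⟨a0, a1, a2, a3, a4, a5, a6⟩ := id_vals
  have hA := Chain.id
  set A : ℂ → ℂ := fun z => z with hAdef
  have hk : ‖(⟨15/17, -8/17⟩ : ℂ)‖ = 1 := by
    rw [Complex.norm_def, Real.sqrt_eq_one]; simp only [Complex.normSq_mk]; norm_num
  obtain ⟨B, hB, hrec⟩ := chain_step hA hk (ρ := 11/12) (by norm_num) (by norm_num)
  have b0 : tc B 0 = 0 := by rw [tc_zero, hB.zero]
  obtain ⟨e1, e2, e3, e4, e5, e6⟩ := chain_vals a0 b0 hrec
  have hr : ((11/12 : ℝ) : ℂ) = ⟨11/12, 0⟩ := by apply Complex.ext <;> simp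
  have hk2 : (⟨15/17, -8/17⟩ : ℂ) ^ 2 = (⟨161/289, -240/289⟩ : ℂ) := by
    rw [pow_two]; apply Complex.ext <;> simp only [Complex.mul_re, Complex.mul_im] <;> norm_num
  have hk0 : 2 * (⟨15/17, -8/17⟩ : ℂ) * (1 - (⟨11/12, 0⟩ : ℂ)) = (⟨5/34, -4/51⟩ : ℂ) := by
    apply Complex.ext <;> simp <;> norm_num
  simp only [hr, hk2, hk0] at e1 e2 e3 e4 e5 e6
  have b1 : tc B 1 = (⟨11/12, 0⟩ : ℂ) := by
    rw [e1]; simp only [a1]; apply Complex.ext <;>
      simp only [Complex.add_re, Complex.add_im, Complex.sub_re, Complex.sub_im, Complex.mul_re, Complex.mul_im] <;> norm_num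
  have b2 : tc B 2 = (⟨55/408, -11/153⟩ : ℂ) := by
    rw [e2]; simp only [a1, a2, b1]; apply Complex.ext <;>
      simp only [Complex.add_re, Complex.add_im, Complex.sub_re, Complex.sub_im, Complex.mul_re, Complex.mul_im] <;> norm_num
  have b3 : tc B 3 = (⟨-33649/499392, 1045/10404⟩ : ℂ) := by
    rw [e3]; simp only [a1, a2, a3, b1, b2]; apply Complex.ext <;>
      simp only [Complex.add_re, Complex.add_im, Complex.sub_re, Complex.sub_im, Complex.mul_re, Complex.mul_im] <;> norm_num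
  have b4 : tc B 4 = (⟨47795/5659776, -530959/6367248⟩ : ℂ) := by
    rw [e4]; simp only [a1, a2, a3, a4, b1, b2, b3]; apply Complex.ext <;>
      simp only [Complex.add_re, Complex.add_im, Complex.sub_re, Complex.sub_im, Complex.mul_re, Complex.mul_im] <;> norm_num
  have b5 : tc B 5 = (⟨20559671/1154594304, 522445/12027024⟩ : ℂ) := by
    rw [e5]; simp only [a1, a2, a3, a4, a5, b1, b2, b3, b4]; apply Complex.ext <;>
      simp only [Complex.add_re, Complex.add_im, Complex.sub_re, Complex.sub_im, Complex.mul_re, Complex.mul_im] <;> norm_num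
  have b6 : tc B 6 = (⟨-1391201075/117768619008, -432164557/44163232128⟩ : ℂ) := by
    rw [e6]; simp only [a1, a2, a3, a4, a5, a6, b1, b2, b3, b4, b5]; apply Complex.ext <;>
      simp only [Complex.add_re, Complex.add_im, Complex.sub_re, Complex.sub_im, Complex.mul_re, Complex.mul_im] <;> norm_num
  exact ⟨B, hB, b0, b1, b2, b3, b4, b5, b6⟩

lemma stage_2 : ∃ G : ℂ → ℂ, Chain G ∧ tc G 0 = 0 ∧
    tc G 1 = (⟨33/40, 0⟩ : ℂ) ∧
    tc G 2 = (⟨2233/35360, 3311/44200⟩ : ℂ) ∧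
    tc G 3 = (⟨32574619/1875494400, 10053659/46887360⟩ : ℂ) ∧
    tc G 4 = (⟨769954192469/8289685248000, -3481267292657/31086319680000⟩ : ℂ) ∧
    tc G 5 = (⟨93268976817558311/3297636791654400000, 2955623214313/10305114973920000⟩ : ℂ) ∧
    tc G 6 = (⟨-37474139126723839771/1749066554293493760000, -170612184140297157797/10931665964334336000000⟩ : ℂ) := by
  obtain ⟨A, hA, a0, a1, a2, a3, a4, a5, a6⟩ := stage_1
  have hk : ‖(⟨-5/13, 12/13⟩ : ℂ)‖ = 1 := by
    rw [Complex.norm_def, Real.sqrt_eq_one]; simp only [Complex.normSq_mk]; norm_num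
  obtain ⟨B, hB, hrec⟩ := chain_step hA hk (ρ := 9/10) (by norm_num) (by norm_num)
  have b0 : tc B 0 = 0 := by rw [tc_zero, hB.zero]
  obtain ⟨e1, e2, e3, e4, e5, e6⟩ := chain_vals a0 b0 hrec
  have hr : ((9/10 : ℝ) : ℂ) = ⟨9/10, 0⟩ := by apply Complex.ext <;> simp
  have hk2 : (⟨-5/13, 12/13⟩ : ℂ) ^ 2 = (⟨-119/169, -120/169⟩ : ℂ) := by
    rw [pow_two]; apply Complex.ext <;> simp only [Complex.mul_re, Complex.mul_im] <;> norm_num
  have hk0 : 2 * (⟨-5/13, 12/13⟩ : ℂ) * (1 - (⟨9/10, 0⟩ : ℂ)) = (⟨-1/13, 12/65⟩ : ℂ) := by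
    apply Complex.ext <;> simp <;> norm_num
  simp only [hr, hk2, hk0] at e1 e2 e3 e4 e5 e6
  have b1 : tc B 1 = (⟨33/40, 0⟩ : ℂ) := by
    rw [e1]; simp only [a1]; apply Complex.ext <;>
      simp only [Complex.add_re, Complex.add_im, Complex.sub_re, Complex.sub_im, Complex.mul_re, Complex.mul_im] <;> norm_num
  have b2 : tc B 2 = (⟨2233/35360, 3311/44200⟩ : ℂ) := by
    rw [e2]; simp only [a1, a2, b1]; apply Complex.ext <;>
      simp only [Complex.add_re, Complex.add_im, Complex.sub_re, Complex.sub_im, Complex.mul_re, Complex.mul_im] <;> norm_num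
  have b3 : tc B 3 = (⟨32574619/1875494400, 10053659/46887360⟩ : ℂ) := by
    rw [e3]; simp only [a1, a2, a3, b1, b2]; apply Complex.ext <;>
      simp only [Complex.add_re, Complex.add_im, Complex.sub_re, Complex.sub_im, Complex.mul_re, Complex.mul_im] <;> norm_num
  have b4 : tc B 4 = (⟨769954192469/8289685248000, -3481267292657/31086319680000⟩ : ℂ) := by
    rw [e4]; simp only [a1, a2, a3, a4, b1, b2, b3]; apply Complex.ext <;>
      simp only [Complex.add_re, Complex.add_im, Complex.sub_re, Complex.sub_im, Complex.mul_re, Complex.mul_im] <;> norm_num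
  have b5 : tc B 5 = (⟨93268976817558311/3297636791654400000, 2955623214313/10305114973920000⟩ : ℂ) := by
    rw [e5]; simp only [a1, a2, a3, a4, a5, b1, b2, b3, b4]; apply Complex.ext <;>
      simp only [Complex.add_re, Complex.add_im, Complex.sub_re, Complex.sub_im, Complex.mul_re, Complex.mul_im] <;> norm_num
  have b6 : tc B 6 = (⟨-37474139126723839771/1749066554293493760000, -170612184140297157797/10931665964334336000000⟩ : ℂ) := by
    rw [e6]; simp only [a1, a2, a3, a4, a5, a6, b1, b2, b3, b4, b5]; apply Complex.ext <;>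
      simp only [Complex.add_re, Complex.add_im, Complex.sub_re, Complex.sub_im, Complex.mul_re, Complex.mul_im] <;> norm_num
  exact ⟨B, hB, b0, b1, b2, b3, b4, b5, b6⟩

lemma stage_3 : ∃ G : ℂ → ℂ, Chain G ∧ tc G 0 = 0 ∧
    tc G 1 = (⟨33/50, 0⟩ : ℂ) ∧
    tc G 2 = (⟨1241801/5525000, 1053107/5525000⟩ : ℂ) ∧
    tc G 3 = (⟨-6093627001/732615000000, 25080388267/183153750000⟩ : ℂ) ∧
    tc G 4 = (⟨10128640888724633/404769787500000000, -4227946956971441/607154681250000000⟩ : ℂ) ∧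
    tc G 5 = (⟨213897821234730775963733/1610174214675000000000000, -1493301631807245619667/50317944208593750000000⟩ : ℂ) ∧
    tc G 6 = (⟨-24255746238710564372218238617/533772752164762500000000000000, -2846370311897662831503164261/133443188041190625000000000000⟩ : ℂ) := by
  obtain ⟨A, hA, a0, a1, a2, a3, a4, a5, a6⟩ := stage_2
  have hk : ‖(⟨4/5, 3/5⟩ : ℂ)‖ = 1 := by
    rw [Complex.norm_def, Real.sqrt_eq_one]; simp only [Complex.normSq_mk]; norm_num
  obtain ⟨B, hB, hrec⟩ := chain_step hA hk (ρ := 4/5) (by norm_num) (by norm_num)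
  have b0 : tc B 0 = 0 := by rw [tc_zero, hB.zero]
  obtain ⟨e1, e2, e3, e4, e5, e6⟩ := chain_vals a0 b0 hrec
  have hr : ((4/5 : ℝ) : ℂ) = ⟨4/5, 0⟩ := by apply Complex.ext <;> simp
  have hk2 : (⟨4/5, 3/5⟩ : ℂ) ^ 2 = (⟨7/25, 24/25⟩ : ℂ) := by
    rw [pow_two]; apply Complex.ext <;> simp only [Complex.mul_re, Complex.mul_im] <;> norm_num
  have hk0 : 2 * (⟨4/5, 3/5⟩ : ℂ) * (1 - (⟨4/5, 0⟩ : ℂ)) = (⟨8/25, 6/25⟩ : ℂ) := by
    apply Complex.ext <;> simp <;> norm_num
  simp only [hr, hk2, hk0] at e1 e2 e3 e4 e5 e6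
  have b1 : tc B 1 = (⟨33/50, 0⟩ : ℂ) := by
    rw [e1]; simp only [a1]; apply Complex.ext <;>
      simp only [Complex.add_re, Complex.add_im, Complex.sub_re, Complex.sub_im, Complex.mul_re, Complex.mul_im] <;> norm_num
  have b2 : tc B 2 = (⟨1241801/5525000, 1053107/5525000⟩ : ℂ) := by
    rw [e2]; simp only [a1, a2, b1]; apply Complex.ext <;>
      simp only [Complex.add_re, Complex.add_im, Complex.sub_re, Complex.sub_im, Complex.mul_re, Complex.mul_im] <;> norm_num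
  have b3 : tc B 3 = (⟨-6093627001/732615000000, 25080388267/183153750000⟩ : ℂ) := by
    rw [e3]; simp only [a1, a2, a3, b1, b2]; apply Complex.ext <;>
      simp only [Complex.add_re, Complex.add_im, Complex.sub_re, Complex.sub_im, Complex.mul_re, Complex.mul_im] <;> norm_num
  have b4 : tc B 4 = (⟨10128640888724633/404769787500000000, -4227946956971441/607154681250000000⟩ : ℂ) := by
    rw [e4]; simp only [a1, a2, a3, a4, b1, b2, b3]; apply Complex.ext <;>
      simp only [Complex.add_re, Complex.add_im, Complex.sub_re, Complex.sub_im, Complex.mul_re, Complex.mul_im] <;> norm_num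
  have b5 : tc B 5 = (⟨213897821234730775963733/1610174214675000000000000, -1493301631807245619667/50317944208593750000000⟩ : ℂ) := by
    rw [e5]; simp only [a1, a2, a3, a4, a5, b1, b2, b3, b4]; apply Complex.ext <;>
      simp only [Complex.add_re, Complex.add_im, Complex.sub_re, Complex.sub_im, Complex.mul_re, Complex.mul_im] <;> norm_num
  have b6 : tc B 6 = (⟨-24255746238710564372218238617/533772752164762500000000000000, -2846370311897662831503164261/133443188041190625000000000000⟩ : ℂ) := by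
    rw [e6]; simp only [a1, a2, a3, a4, a5, a6, b1, b2, b3, b4, b5]; apply Complex.ext <;>
      simp only [Complex.add_re, Complex.add_im, Complex.sub_re, Complex.sub_im, Complex.mul_re, Complex.mul_im] <;> norm_num
  exact ⟨B, hB, b0, b1, b2, b3, b4, b5, b6⟩

lemma stage_4 : ∃ G : ℂ → ℂ, Chain G ∧ tc G 0 = 0 ∧
    tc G 1 = (⟨27/50, 0⟩ : ℂ) ∧
    tc G 2 = (⟨1016019/5525000, 145593/5525000⟩ : ℂ) ∧
    tc G 3 = (⟨5602427187/48841000000, 290228223/12210250000⟩ : ℂ) ∧
    tc G 4 = (⟨19889020303933089/134923262500000000, 2813331995809349/67461631250000000⟩ : ℂ) ∧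
    tc G 5 = (⟨21655640679494844040543/178908246075000000000000, 279047087050280499143/5590882689843750000000⟩ : ℂ) ∧
    tc G 6 = (⟨-4234081713416387826808779947/59308083573862500000000000000, -532622062907749026059229151/14827020893465625000000000000⟩ : ℂ) := by
  obtain ⟨A, hA, a0, a1, a2, a3, a4, a5, a6⟩ := stage_3
  have hk : ‖(⟨0, -1⟩ : ℂ)‖ = 1 := by
    rw [Complex.norm_def, Real.sqrt_eq_one]; simp only [Complex.normSq_mk]; norm_num
  obtain ⟨B, hB, hrec⟩ := chain_step hA hk (ρ := 9/11) (by norm_num) (by norm_num)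
  have b0 : tc B 0 = 0 := by rw [tc_zero, hB.zero]
  obtain ⟨e1, e2, e3, e4, e5, e6⟩ := chain_vals a0 b0 hrec
  have hr : ((9/11 : ℝ) : ℂ) = ⟨9/11, 0⟩ := by apply Complex.ext <;> simp
  have hk2 : (⟨0, -1⟩ : ℂ) ^ 2 = (⟨-1, 0⟩ : ℂ) := by
    rw [pow_two]; apply Complex.ext <;> simp only [Complex.mul_re, Complex.mul_im] <;> norm_num
  have hk0 : 2 * (⟨0, -1⟩ : ℂ) * (1 - (⟨9/11, 0⟩ : ℂ)) = (⟨0, -4/11⟩ : ℂ) := by
    apply Complex.ext <;> simp <;> norm_num
  simp only [hr, hk2, hk0] at e1 e2 e3 e4 e5 e6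
  have b1 : tc B 1 = (⟨27/50, 0⟩ : ℂ) := by
    rw [e1]; simp only [a1]; apply Complex.ext <;>
      simp only [Complex.add_re, Complex.add_im, Complex.sub_re, Complex.sub_im, Complex.mul_re, Complex.mul_im] <;> norm_num
  have b2 : tc B 2 = (⟨1016019/5525000, 145593/5525000⟩ : ℂ) := by
    rw [e2]; simp only [a1, a2, b1]; apply Complex.ext <;>
      simp only [Complex.add_re, Complex.add_im, Complex.sub_re, Complex.sub_im, Complex.mul_re, Complex.mul_im] <;> norm_num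
  have b3 : tc B 3 = (⟨5602427187/48841000000, 290228223/12210250000⟩ : ℂ) := by
    rw [e3]; simp only [a1, a2, a3, b1, b2]; apply Complex.ext <;>
      simp only [Complex.add_re, Complex.add_im, Complex.sub_re, Complex.sub_im, Complex.mul_re, Complex.mul_im] <;> norm_num
  have b4 : tc B 4 = (⟨19889020303933089/134923262500000000, 2813331995809349/67461631250000000⟩ : ℂ) := by
    rw [e4]; simp only [a1, a2, a3, a4, b1, b2, b3]; apply Complex.ext <;>
      simp only [Complex.add_re, Complex.add_im, Complex.sub_re, Complex.sub_im, Complex.mul_re, Complex.mul_im] <;> norm_num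
  have b5 : tc B 5 = (⟨21655640679494844040543/178908246075000000000000, 279047087050280499143/5590882689843750000000⟩ : ℂ) := by
    rw [e5]; simp only [a1, a2, a3, a4, a5, b1, b2, b3, b4]; apply Complex.ext <;>
      simp only [Complex.add_re, Complex.add_im, Complex.sub_re, Complex.sub_im, Complex.mul_re, Complex.mul_im] <;> norm_num
  have b6 : tc B 6 = (⟨-4234081713416387826808779947/59308083573862500000000000000, -532622062907749026059229151/14827020893465625000000000000⟩ : ℂ) := by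
    rw [e6]; simp only [a1, a2, a3, a4, a5, a6, b1, b2, b3, b4, b5]; apply Complex.ext <;>
      simp only [Complex.add_re, Complex.add_im, Complex.sub_re, Complex.sub_im, Complex.mul_re, Complex.mul_im] <;> norm_num
  exact ⟨B, hB, b0, b1, b2, b3, b4, b5, b6⟩

/-- A function in the exterior class whose fourth coefficient exceeds `2/5`. -/
theorem sigma_four : ∃ f : ℂ → ℂ, ∃ b : ℕ → ℂ,
      DifferentiableOn ℂ f {z : ℂ | 1 < ‖z‖} ∧ InjOn f {z : ℂ | 1 < ‖z‖} ∧
      (∀ z : ℂ, 1 < ‖z‖ → HasSum (fun k : ℕ => b k * (z⁻¹)^k) (f z - z)) ∧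
      b 4 = (⟨3873031880166066879986496173/10675455043295250000000000000, 1356755619812862087192771677/8006591282471437500000000000⟩ : ℂ) := by
  obtain ⟨A, hA, a0, a1, a2, a3, a4, a5, a6⟩ := stage_4
  have hT : ((50/27 : ℝ) : ℂ) * tc A 1 = 1 := by
    rw [a1]; apply Complex.ext <;> simp <;> norm_num
  obtain ⟨f, b, s1, s2, s3, c, c0, hbc, hrec⟩ := sigma_of_chain hA hT
  refine ⟨f, b, s1, s2, s3, ?_⟩
  rw [hbc]
  have hr : ((50/27 : ℝ) : ℂ) = ⟨50/27, 0⟩ := by apply Complex.ext <;> simp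
  have c0' : c 0 = (⟨1, 0⟩ : ℂ) := by rw [c0]; apply Complex.ext <;> simp

  have r1 := hrec 1
  simp only [cv, Finset.sum_range_succ, Finset.sum_range_zero, hr, a0, a1, a2, a3, a4, a5, a6, c0',
    Nat.reduceSub, Nat.reduceAdd, Nat.reduceEqDiff, if_false, zero_add, mul_zero, zero_mul, add_zero] at r1
  have c1 : c 1 = (⟨-470911/331500, -16177/331500⟩ : ℂ) := by
    rw [Complex.ext_iff] at r1 ⊢
    simp at r1 ⊢
    constructor <;> linarith [r1.1, r1.2]
  have r2 := hrec 2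
  simp only [cv, Finset.sum_range_succ, Finset.sum_range_zero, hr, a0, a1, a2, a3, a4, a5, a6, c0', c1,
    Nat.reduceSub, Nat.reduceAdd, Nat.reduceEqDiff, if_false, zero_add, mul_zero, zero_mul, add_zero] at r2
  have c2 : c 2 = (⟨42367632079/219784500000, -98721803/9157687500⟩ : ℂ) := by
    rw [Complex.ext_iff] at r2 ⊢
    simp at r2 ⊢
    constructor <;> linarith [r2.1, r2.2]
  have r3 := hrec 3
  simp only [cv, Finset.sum_range_succ, Finset.sum_range_zero, hr, a0, a1, a2, a3, a4, a5, a6, c0', c1, c2,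
    Nat.reduceSub, Nat.reduceAdd, Nat.reduceEqDiff, if_false, zero_add, mul_zero, zero_mul, add_zero] at r3
  have c3 : c 3 = (⟨-189854262974461/2698465250000000, -530909216006651/18214640437500000⟩ : ℂ) := by
    rw [Complex.ext_iff] at r3 ⊢
    simp at r3 ⊢
    constructor <;> linarith [r3.1, r3.2]
  have r4 := hrec 4
  simp only [cv, Finset.sum_range_succ, Finset.sum_range_zero, hr, a0, a1, a2, a3, a4, a5, a6, c0', c1, c2, c3,
    Nat.reduceSub, Nat.reduceAdd, Nat.reduceEqDiff, if_false, zero_add, mul_zero, zero_mul, add_zero] at r4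
  have c4 : c 4 = (⟨61081873261253701919/19322090576100000000000, -2069151107646149927/201271776834375000000⟩ : ℂ) := by
    rw [Complex.ext_iff] at r4 ⊢
    simp at r4 ⊢
    constructor <;> linarith [r4.1, r4.2]
  have r5 := hrec 5
  simp only [cv, Finset.sum_range_succ, Finset.sum_range_zero, hr, a0, a1, a2, a3, a4, a5, a6, c0', c1, c2, c3, c4,
    Nat.reduceSub, Nat.reduceAdd, Nat.reduceEqDiff, if_false, zero_add, mul_zero, zero_mul, add_zero] at r5
  have c5 : c 5 = (⟨3873031880166066879986496173/10675455043295250000000000000, 1356755619812862087192771677/8006591282471437500000000000⟩ : ℂ) := by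
    rw [Complex.ext_iff] at r5 ⊢
    simp at r5 ⊢
    constructor <;> linarith [r5.1, r5.2]
  exact c5

end Pool.Agent.R254
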