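import Mathlib
import Pool.Agent.R254.Jet
import Pool.Agent.R254.JetPoly
import Pool.Agent.R254.SigmaFam
import Pool.Agent.R254.Binom

set_option autoImplicit false

open Complex Metric Set Filter Topology

namespace Pool.Agent.R254

/-- logarithm of `z (1-z)^(-(1+γ))` at `z = exp ζ` -/
noncomputable def ell (γ ζ : ℂ) : ℂ := ζ - (1 + γ) * log (1 - exp ζ)

theorem exp_mem {ζ : ℂ} (h : ζ.re < 0) : exp ζ ∈ ball (0:ℂ) 1 := by
  rw [mem_ball_zero_iff, norm_exp]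
  exact Real.exp_lt_one_iff.mpr h

theorem ell_deriv (γ : ℂ) {ζ : ℂ} (h : ζ.re < 0) :
    HasDerivAt (ell γ) (1 + (1 + γ) * exp ζ / (1 - exp ζ)) ζ := by
  have h1 : HasDerivAt (fun w : ℂ => 1 - exp w) (-exp ζ) ζ := (hasDerivAt_exp ζ).const_sub 1
  have h2 := (hasDerivAt_id ζ).sub ((h1.clog (one_sub_mem (exp_mem h))).const_mul (1 + γ))
  have h3 : 1 - (1 + γ) * (-exp ζ / (1 - exp ζ)) = 1 + (1 + γ) * exp ζ / (1 - exp ζ) := by ring
  rw [h3] at h2
  exact h2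

theorem inv_one_sub_re {w : ℂ} (hw : ‖w‖ < 1) : 1 / 2 < ((1 - w)⁻¹).re := by
  have hne : 1 - w ≠ 0 := one_sub_ne (by simpa using hw)
  have h3 : 0 < normSq (1 - w) := normSq_pos.mpr hne
  rw [inv_re, lt_div_iff₀ h3, normSq_apply]
  simp only [sub_re, one_re, sub_im, one_im]
  have h5 : w.re * w.re + w.im * w.im < 1 := by
    rw [← normSq_apply, normSq_eq_norm_sq]
    nlinarith [norm_nonneg w]
  nlinarith

theorem ell_pos {γ : ℂ} (hγ : normSq γ ≤ 1) (hγ1 : 1 + γ ≠ 0) {ζ : ℂ} (h : ζ.re < 0) :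
    0 < ((starRingEnd ℂ) (1 + γ) * (1 + (1 + γ) * exp ζ / (1 - exp ζ))).re := by
  have hm := exp_mem h
  generalize exp ζ = w at hm
  have hw : ‖w‖ < 1 := by simpa using hm
  have hne := one_sub_ne hm
  have e1 : (starRingEnd ℂ) (1 + γ) * (1 + (1 + γ) * w / (1 - w)) =
      (starRingEnd ℂ) (1 + γ) - ((normSq (1 + γ) : ℝ) : ℂ) + ((normSq (1 + γ) : ℝ) : ℂ) * (1 - w)⁻¹ := by
    rw [← mul_conj]
    field_simp
    ring
  have h2 := inv_one_sub_re hw
  have hpos : 0 < normSq (1 + γ) := normSq_pos.mpr hγ1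
  rw [e1, add_re, re_ofReal_mul, sub_re, ofReal_re, conj_re]
  have e2 : normSq (1 + γ) = 1 + 2 * γ.re + normSq γ := by
    simp [normSq_apply]; ring
  have e3 : (1 + γ).re = 1 + γ.re := by simp
  rw [e3]
  nlinarith

theorem ell_inj {γ : ℂ} (hγ : normSq γ ≤ 1) (hγ1 : 1 + γ ≠ 0) {ζ ξ : ℂ} (h1 : ζ.re < 0) (h2 : ξ.re < 0)
    (h : ell γ ζ = ell γ ξ) : ζ = ξ := by
  have hH : Convex ℝ {w : ℂ | w.re < 0} := convex_halfSpace_re_lt _
  refine noshiro (F := fun w => (starRingEnd ℂ) (1 + γ) * ell γ w)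
    (F' := fun w => (starRingEnd ℂ) (1 + γ) * (1 + (1 + γ) * exp w / (1 - exp w))) hH ?_ ?_ h1 h2 ?_
  · intro w hw
    exact (ell_deriv γ hw).const_mul _
  · intro w hw
    exact ell_pos hγ hγ1 hw
  · simp only [h]

theorem ell_add (γ ζ : ℂ) (n : ℤ) : ell γ (ζ + n * (2 * Real.pi * I)) = ell γ ζ + n * (2 * Real.pi * I) := by
  unfold ell
  rw [exp_add, exp_int_mul_two_pi_mul_I, mul_one]
  ring

/-- `z (1-z)^(-(1+γ))` is univalent when `|γ| ≤ 1`, `γ ≠ -1`. -/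
theorem spiral_inj {γ : ℂ} (hγ : normSq γ ≤ 1) (hγ1 : 1 + γ ≠ 0) :
    Set.InjOn (fun z => z * bP (1 + γ) z) (ball (0:ℂ) 1) := by
  intro z hz z' hz' h
  simp only at h
  by_cases h0 : z = 0
  · rw [h0] at h ⊢
    rw [zero_mul] at h
    rcases mul_eq_zero.mp h.symm with h1 | h1
    · exact h1.symm
    · exact absurd h1 (bP_ne _ _)
  by_cases h0' : z' = 0
  · rw [h0'] at h ⊢
    rw [zero_mul] at h
    rcases mul_eq_zero.mp h with h1 | h1
    · exact h1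
    · exact absurd h1 (bP_ne _ _)
  have hlog : ∀ w ∈ ball (0:ℂ) 1, w ≠ 0 → (log w).re < 0 ∧
      w * bP (1 + γ) w = exp (ell γ (log w)) := by
    intro w hw hw0
    have hw1 : ‖w‖ < 1 := by simpa using hw
    refine ⟨?_, ?_⟩
    · rw [log_re]
      exact Real.log_neg (norm_pos_iff.mpr hw0) hw1
    · unfold ell bP
      rw [exp_log hw0, show log w - (1 + γ) * log (1 - w) = log w + (-(1 + γ) * log (1 - w)) by ring,
        exp_add, exp_log hw0]
  obtain ⟨r1, e1⟩ := hlog z hz h0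
  obtain ⟨r2, e2⟩ := hlog z' hz' h0'
  rw [e1, e2] at h
  obtain ⟨n, hn⟩ := exp_eq_exp_iff_exists_int.mp h
  rw [← ell_add] at hn
  have hre : (log z' + n * (2 * Real.pi * I)).re < 0 := by
    have : (log z' + n * (2 * Real.pi * I)).re = (log z').re := by simp
    rw [this]; exact r2
  have h3 := ell_inj hγ hγ1 r1 hre hn
  have h4 := congrArg exp h3
  rw [exp_add, exp_int_mul_two_pi_mul_I, mul_one, exp_log h0, exp_log h0'] at h4
  exact h4

end Pool.Agent.R254
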