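import Mathlib
import Pool.Agent.R254.Binom

set_option autoImplicit false

open Complex Metric Set Filter Topology

namespace Pool.Agent.R254

/-- exponent of the spirallike function -/
noncomputable def ga (τ : ℝ) : ℂ := 1 - (τ:ℂ)^2 + τ * I

/-- exponent of the neighbourhood function -/
noncomputable def bb (τ : ℝ) : ℂ := -(1 + τ * I)

noncomputable def tt (τ : ℝ) (m : ℕ) : ℂ := pc (1 + ga τ) m * pc (bb τ) m

noncomputable def XX (τ : ℝ) (m : ℕ) : ℂ := m * tt τ m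

theorem tt_succ (τ : ℝ) (m : ℕ) :
    tt τ (m + 1) = tt τ m * ((2 - (τ:ℂ)^2 + τ * I + m) * (m - 1 - τ * I) / ((m + 1) * (m + 1))) := by
  unfold tt
  rw [pc_succ, pc_succ]
  have h : (m : ℂ) + 1 ≠ 0 := Nat.cast_add_one_ne_zero m
  unfold bb ga
  field_simp
  ring

theorem tt_zero (τ : ℝ) : tt τ 0 = 1 := by unfold tt; rw [pc_zero, pc_zero, mul_one]

theorem tt_one (τ : ℝ) : tt τ 1 = (2 - (τ:ℂ)^2 + τ * I) * (-1 - τ * I) := by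
  have h := tt_succ τ 0
  rw [tt_zero] at h
  rw [h]; push_cast; ring

theorem tt_two (τ : ℝ) : tt τ 2 = (2 - (τ:ℂ)^2 + τ * I) * (-1 - τ * I) *
    ((3 - (τ:ℂ)^2 + τ * I) * (- (τ * I)) / 4) := by
  have h := tt_succ τ 1
  rw [tt_one] at h
  rw [h]; push_cast; ring

lemma norm_tau {τ : ℝ} (h0 : 0 ≤ τ) : ‖(τ:ℂ) * I‖ = τ := by
  rw [norm_mul, norm_I, mul_one, norm_real, Real.norm_eq_abs, abs_of_nonneg h0]

lemma norm_tau2 {τ : ℝ} (h0 : 0 ≤ τ) : ‖(τ:ℂ)^2‖ = τ^2 := by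
  rw [norm_pow, norm_real, Real.norm_eq_abs, abs_of_nonneg h0]

lemma norm_sum3 {τ : ℝ} (h0 : 0 ≤ τ) (h1 : τ ≤ 1/2) (k : ℝ) (hk : 0 ≤ k) :
    ‖(k:ℂ) - (τ:ℂ)^2 + τ * I‖ ≤ k + 3/4 := by
  have a1 := norm_add_le ((k:ℂ) - (τ:ℂ)^2) (τ * I)
  have a2 := norm_sub_le (k:ℂ) ((τ:ℂ)^2)
  have a3 : ‖(k:ℂ)‖ = k := by rw [norm_real, Real.norm_eq_abs, abs_of_nonneg hk]
  rw [norm_tau h0] at a1
  rw [norm_tau2 h0, a3] at a2
  nlinarith

theorem norm_tt_two {τ : ℝ} (h0 : 0 ≤ τ) (h1 : τ ≤ 1/2) : ‖tt τ 2‖ ≤ 4 * τ := by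
  rw [tt_two, norm_mul, norm_mul, norm_div, norm_mul, norm_neg, norm_tau h0]
  have a1 : ‖(2:ℂ) - (τ:ℂ)^2 + τ * I‖ ≤ 11/4 := by
    have := norm_sum3 h0 h1 2 (by norm_num)
    push_cast at this; linarith
  have a2 : ‖(3:ℂ) - (τ:ℂ)^2 + τ * I‖ ≤ 15/4 := by
    have := norm_sum3 h0 h1 3 (by norm_num)
    push_cast at this; linarith
  have a3 : ‖(-1:ℂ) - τ * I‖ ≤ 3/2 := by
    have := norm_sub_le (-1:ℂ) (τ * I)
    rw [norm_tau h0, norm_neg, norm_one] at this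
    linarith
  have a4 : ‖(4:ℂ)‖ = 4 := by simp
  rw [a4]
  have b1 : ‖(2:ℂ) - (τ:ℂ)^2 + τ * I‖ * ‖(-1:ℂ) - τ * I‖ ≤ 11/4 * (3/2) :=
    mul_le_mul a1 a3 (norm_nonneg _) (by norm_num)
  have b2 : ‖(3:ℂ) - (τ:ℂ)^2 + τ * I‖ * τ / 4 ≤ 15/4 * τ / 4 := by
    have := mul_le_mul_of_nonneg_right a2 h0
    linarith
  have b3 : 0 ≤ ‖(3:ℂ) - (τ:ℂ)^2 + τ * I‖ * τ / 4 := by positivity
  have b4 := mul_le_mul b1 b2 b3 (by norm_num)
  refine b4.trans ?_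
  nlinarith

theorem XX_succ (τ : ℝ) (m : ℕ) (hm : 1 ≤ m) :
    XX τ (m + 1) = XX τ m * ((2 - (τ:ℂ)^2 + τ * I + m) * (m - 1 - τ * I) / (m * (m + 1))) := by
  unfold XX
  rw [tt_succ]
  have h : (m : ℂ) + 1 ≠ 0 := Nat.cast_add_one_ne_zero m
  have h' : (m : ℂ) ≠ 0 := by exact_mod_cast (by omega : m ≠ 0)
  push_cast
  field_simp

theorem ratio_poly (e m : ℝ) (he : 0 ≤ e) (he1 : e ≤ 1/4) (hm : 2 ≤ m) :
    ((m + 2 - e)^2 + e) * ((m - 1)^2 + e) ≤ (m * (m + 1 - e))^2 := by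
  have h1 : (m * (m + 1 - e))^2 - ((m + 2 - e)^2 + e) * ((m - 1)^2 + e) =
      2 * (m^2 + m * (1 - e)) * (2 - e) - (2 - e)^2 - e * ((m + 2 - e)^2 + (m-1)^2 + e) := by ring
  have h2 : e * ((m + 2 - e)^2 + (m-1)^2 + e) ≤ (1/4) * ((m + 2)^2 + (m-1)^2 + 1) := by
    apply mul_le_mul he1 _ (by positivity) (by norm_num)
    nlinarith
  have h3 : (2 - e)^2 ≤ 4 := by nlinarith
  have h4 : 2 * (m^2 + m * (3/4)) * (7/4) ≤ 2 * (m^2 + m * (1 - e)) * (2 - e) := by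
    apply mul_le_mul _ _ (by norm_num) (by nlinarith)
    · nlinarith
    · linarith
  nlinarith

theorem ratio_bound {τ : ℝ} (h0 : 0 ≤ τ) (h1 : τ ≤ 1/2) (m : ℕ) (hm : 2 ≤ m) :
    ‖(2 - (τ:ℂ)^2 + τ * I + m) * (m - 1 - τ * I) / (m * (m + 1))‖ ≤ 1 - τ^2 / (m + 1) := by
  have hm' : (2 : ℝ) ≤ m := by exact_mod_cast hm
  have he : τ^2 ≤ 1/4 := by nlinarith
  have hpos : 0 < 1 - τ^2 / (m + 1) := by
    have : τ^2 / (m + 1) < 1 := by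
      rw [div_lt_one (by linarith)]; linarith
    linarith
  refine le_of_sq_le_sq ?_ hpos.le
  rw [norm_div, norm_mul, div_pow, mul_pow, ← normSq_eq_norm_sq, ← normSq_eq_norm_sq,
    ← normSq_eq_norm_sq]
  have e1 : normSq (2 - (τ:ℂ)^2 + τ * I + (m : ℂ)) = (m + 2 - τ^2) ^ 2 + τ^2 := by
    rw [normSq_apply, pow_two]
    simp
    ring
  have e2 : normSq ((m : ℂ) - 1 - τ * I) = (m - 1) ^ 2 + τ^2 := by
    rw [normSq_apply]
    simp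
    ring
  have e3 : normSq ((m : ℂ) * (m + 1)) = (m * (m + 1)) ^ 2 := by
    rw [normSq_apply]
    simp
    ring
  rw [e1, e2, e3, div_le_iff₀ (by positivity)]
  have e4 : (1 - τ^2 / (m + 1)) ^ 2 * (m * (m + 1)) ^ 2 = (m * (m + 1 - τ^2)) ^ 2 := by
    field_simp
  rw [e4]
  exact ratio_poly (τ^2) m (sq_nonneg _) he hm'

theorem XX_step {τ : ℝ} (h0 : 0 ≤ τ) (h1 : τ ≤ 1/2) (m : ℕ) (hm : 2 ≤ m) :
    ‖XX τ (m + 1)‖ ≤ (1 - τ^2 / (m + 1)) * ‖XX τ m‖ := by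
  rw [XX_succ τ m (by omega), norm_mul, mul_comm]
  exact mul_le_mul_of_nonneg_right (ratio_bound h0 h1 m hm) (norm_nonneg _)

theorem XX_bound {τ : ℝ} (h0 : 0 ≤ τ) (h1 : τ ≤ 1/2) (m : ℕ) (hm : 2 ≤ m) : ‖XX τ m‖ ≤ 8 * τ := by
  induction m, hm using Nat.le_induction with
  | base =>
    unfold XX
    rw [norm_mul]
    have := norm_tt_two h0 h1
    have e : ‖((2 : ℕ) : ℂ)‖ = 2 := by simp
    rw [e]
    linarith
  | succ m hm ih =>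
    refine (XX_step h0 h1 m hm).trans ?_
    have h2 : (0:ℝ) ≤ τ^2 / (m + 1) := by positivity
    nlinarith [norm_nonneg (XX τ m)]

theorem XX_exp {τ : ℝ} (h0 : 0 ≤ τ) (h1 : τ ≤ 1/2) (n : ℕ) : ‖XX τ (n + 2)‖ ≤
    (8 * τ * Real.exp (τ^2 * ∑ i ∈ Finset.range 2, 1 / ((i : ℝ) + 1))) *
      Real.exp (-(τ^2 * ∑ i ∈ Finset.range (n + 2), 1 / ((i : ℝ) + 1))) := by
  induction n with
  | zero =>
    rw [zero_add, mul_assoc, ← Real.exp_add]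
    simp only [add_neg_cancel, Real.exp_zero, mul_one]
    exact XX_bound h0 h1 2 le_rfl
  | succ n ih =>
    have h2 := XX_step h0 h1 (n + 2) (by omega)
    have e : n + 1 + 2 = n + 2 + 1 := by ring
    rw [e]
    refine h2.trans ?_
    have h3 : 1 - τ^2 / (((n + 2 : ℕ) : ℝ) + 1) ≤
        Real.exp (-(τ^2 * (1 / (((n + 2 : ℕ) : ℝ) + 1)))) := by
      have := Real.add_one_le_exp (-(τ^2 * (1 / (((n + 2 : ℕ) : ℝ) + 1))))
      refine le_trans (le_of_eq ?_) this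
      ring
    calc (1 - τ^2 / (((n + 2 : ℕ) : ℝ) + 1)) * ‖XX τ (n + 2)‖
        ≤ Real.exp (-(τ^2 * (1 / (((n + 2 : ℕ) : ℝ) + 1)))) * _ :=
          mul_le_mul h3 ih (norm_nonneg _) (Real.exp_pos _).le
      _ = _ := by
        rw [Finset.sum_range_succ _ (n + 2), mul_comm, mul_assoc, ← Real.exp_add]
        congr 2
        ring

theorem XX_tendsto {τ : ℝ} (h0 : 0 < τ) (h1 : τ ≤ 1/2) : Tendsto (XX τ) atTop (𝓝 0) := by
  rw [← tendsto_add_atTop_iff_nat 2]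
  apply squeeze_zero_norm (XX_exp h0.le h1)
  rw [← mul_zero (8 * τ * Real.exp (τ^2 * ∑ i ∈ Finset.range 2, 1 / ((i : ℝ) + 1)))]
  apply Tendsto.const_mul
  apply Real.tendsto_exp_neg_atTop_nhds_zero.comp
  apply Tendsto.const_mul_atTop (by positivity)
  exact (Real.tendsto_sum_range_one_div_nat_succ_atTop).comp (tendsto_add_atTop_nat 2)

/-- the telescoping identity -/
theorem telescope (τ : ℝ) (M : ℕ) : XX τ M = -(τ:ℂ)^2 * ∑ m ∈ Finset.range M, tt τ m +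
    ((τ:ℂ)^2 + (2 - (τ:ℂ)^2 + τ * I) * (-(1 + τ * I))) * ∑ m ∈ Finset.range M, tt τ m / (m + 1) := by
  induction M with
  | zero => unfold XX; simp
  | succ M ih =>
    rw [Finset.sum_range_succ, Finset.sum_range_succ]
    have h : (M : ℂ) + 1 ≠ 0 := Nat.cast_add_one_ne_zero M
    have e : XX τ (M + 1) = XX τ M - (τ:ℂ)^2 * tt τ M +
        ((τ:ℂ)^2 + (2 - (τ:ℂ)^2 + τ * I) * (-(1 + τ * I))) * (tt τ M / (M + 1)) := by
      unfold XX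
      rw [tt_succ]
      push_cast
      field_simp
      ring
    rw [e, ih]
    ring

theorem term_bound {τ : ℝ} (h0 : 0 ≤ τ) (h1 : τ ≤ 1/2) (n : ℕ) :
    ‖tt τ (n + 2) / (((n + 2 : ℕ) : ℂ) + 1)‖ ≤ 8 * τ * (1 / (((n:ℝ) + 2) * ((n : ℝ) + 3))) := by
  have h2 := XX_bound h0 h1 (n + 2) (by omega)
  unfold XX at h2
  rw [norm_mul] at h2
  have e1 : ‖((n + 2 : ℕ) : ℂ)‖ = (n : ℝ) + 2 := by
    rw [norm_natCast]; push_cast; ring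
  rw [e1] at h2
  have e2 : ‖((n + 2 : ℕ) : ℂ) + 1‖ = (n : ℝ) + 3 := by
    have : ((n + 2 : ℕ) : ℂ) + 1 = ((n + 3 : ℕ) : ℂ) := by push_cast; ring
    rw [this, norm_natCast]; push_cast; ring
  rw [norm_div, e2]
  have hn : (0:ℝ) ≤ n := Nat.cast_nonneg n
  rw [div_le_iff₀ (by linarith)]
  have e4 : 8 * τ * (1 / (((n : ℝ) + 2) * (n + 3))) * (n + 3) = 8 * τ / (n + 2) := by
    field_simp
  rw [e4, le_div_iff₀ (by linarith)]
  linarith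

theorem summable_aux : Summable (fun n : ℕ => 1 / (((n:ℝ) + 2) * ((n : ℝ) + 3))) := by
  apply Summable.of_nonneg_of_le (f := fun n : ℕ => 1 / ((n + 1 : ℕ) : ℝ) ^ 2)
  · intro n; positivity
  · intro n
    push_cast
    apply one_div_le_one_div_of_le (by positivity)
    have hn : (0:ℝ) ≤ n := Nat.cast_nonneg n
    nlinarith
  · exact (summable_nat_add_iff 1).mpr (Real.summable_one_div_nat_pow.mpr one_lt_two)

theorem summable_q {τ : ℝ} (h0 : 0 ≤ τ) (h1 : τ ≤ 1/2) : Summable (fun m : ℕ => tt τ m / ((m : ℂ) + 1)) := by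
  rw [← summable_nat_add_iff 2]
  apply Summable.of_norm_bounded (g := fun n : ℕ => 8 * τ * (1 / (((n:ℝ) + 2) * ((n : ℝ) + 3))))
  · exact summable_aux.mul_left _
  · intro n
    exact term_bound h0 h1 n

theorem tt_bound {τ : ℝ} (h0 : 0 ≤ τ) (h1 : τ ≤ 1/2) : ∃ C : ℝ, ∀ m, ‖tt τ m‖ ≤ C := by
  refine ⟨‖tt τ 0‖ + ‖tt τ 1‖ + 4, ?_⟩
  intro m
  have a0 := norm_nonneg (tt τ 0)
  have a1 := norm_nonneg (tt τ 1)
  rcases Nat.lt_or_ge m 2 with h | h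
  · interval_cases m <;> linarith
  · have h4 := XX_bound h0 h1 m h
    unfold XX at h4
    rw [norm_mul, norm_natCast] at h4
    have h5 : (2:ℝ) ≤ m := by exact_mod_cast h
    nlinarith [norm_nonneg (tt τ m)]

theorem hasSum_one : HasSum (fun n : ℕ => (1:ℝ) / (((n:ℝ) + 1) * ((n : ℝ) + 2))) 1 := by
  rw [hasSum_iff_tendsto_nat_of_nonneg (fun n => by positivity)]
  have h : ∀ N : ℕ, ∑ n ∈ Finset.range N, (1:ℝ) / (((n:ℝ) + 1) * ((n : ℝ) + 2)) = 1 - 1 / ((N:ℝ) + 1) := by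
    intro N
    induction N with
    | zero => simp
    | succ N ih =>
      rw [Finset.sum_range_succ, ih]
      push_cast
      field_simp
      ring
  simp only [h]
  have := tendsto_one_div_add_atTop_nhds_zero_nat (𝕜 := ℝ)
  simpa using this.const_sub 1

/-- the limit as `τ → 0` of the normalized terms -/
theorem tt_lim (n : ℕ) : Tendsto (fun τ : ℝ => tt τ (n + 2) / (((n + 2 : ℕ) : ℂ) + 1) / (τ:ℂ))
    (𝓝[>] 0) (𝓝 (((1:ℝ) / (((n:ℝ) + 1) * ((n : ℝ) + 2)) : ℝ) * I)) := by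
  -- product formula: tt τ (n+2) = τ * w τ n with w continuous
  have key : ∀ n : ℕ, ∃ w : ℝ → ℂ, Continuous w ∧ (∀ τ : ℝ, tt τ (n + 2) = τ * w τ) ∧
      w 0 = (((n:ℝ) + 3) / (((n:ℝ) + 1) * ((n : ℝ) + 2)) : ℝ) * I := by
    intro n
    induction n with
    | zero =>
      refine ⟨fun τ => (2 - (τ:ℂ)^2 + τ * I) * (-1 - τ * I) * ((3 - (τ:ℂ)^2 + τ * I) * (- I) / 4), ?_, ?_, ?_⟩
      · fun_prop
      · intro τ; rw [zero_add, tt_two]; ring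
      · push_cast; ring
    | succ n ih =>
      obtain ⟨w, hw1, hw2, hw3⟩ := ih
      refine ⟨fun τ => w τ * ((2 - (τ:ℂ)^2 + τ * I + ((n + 2 : ℕ):ℂ)) * (((n + 2 : ℕ):ℂ) - 1 - τ * I) /
        ((((n + 2 : ℕ):ℂ) + 1) * (((n + 2 : ℕ):ℂ) + 1))), ?_, ?_, ?_⟩
      · apply hw1.mul
        apply Continuous.div_const
        fun_prop
      · intro τ
        rw [show n + 1 + 2 = (n + 2) + 1 by ring, tt_succ, hw2]
        ring
      · beta_reduce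
        rw [hw3]
        have b1 : ((n:ℂ) + 1) ≠ 0 := Nat.cast_add_one_ne_zero n
        have b2 : ((n:ℂ) + 2) ≠ 0 := by exact_mod_cast (by omega : n + 2 ≠ 0)
        have b3 : ((n:ℂ) + 3) ≠ 0 := by exact_mod_cast (by omega : n + 3 ≠ 0)
        have b4 : ((n:ℂ) + 2 + 1) ≠ 0 := by exact_mod_cast (by omega : n + 2 + 1 ≠ 0)
        have b5 : ((n:ℂ) + 1 + 1) ≠ 0 := by exact_mod_cast (by omega : n + 1 + 1 ≠ 0)
        have b6 : ((n:ℂ) + 1 + 2) ≠ 0 := by exact_mod_cast (by omega : n + 1 + 2 ≠ 0)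
        push_cast
        field_simp
        ring
  obtain ⟨w, hw1, hw2, hw3⟩ := key n
  have h1 : Tendsto (fun τ : ℝ => w τ / (((n + 2 : ℕ) : ℂ) + 1)) (𝓝[>] 0)
      (𝓝 (w 0 / (((n + 2 : ℕ) : ℂ) + 1))) :=
    ((hw1.tendsto 0).mono_left nhdsWithin_le_nhds).div_const _
  have e0 : w 0 / (((n + 2 : ℕ) : ℂ) + 1) = (((1:ℝ) / (((n:ℝ) + 1) * ((n : ℝ) + 2)) : ℝ) * I) := by
    rw [hw3]
    have b1 : ((n:ℂ) + 1) ≠ 0 := Nat.cast_add_one_ne_zero n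
    have b2 : ((n:ℂ) + 2) ≠ 0 := by exact_mod_cast (by omega : n + 2 ≠ 0)
    have b4 : ((n:ℂ) + 2 + 1) ≠ 0 := by exact_mod_cast (by omega : n + 2 + 1 ≠ 0)
    push_cast
    field_simp
    ring
  rw [e0] at h1
  refine h1.congr' ?_
  filter_upwards [self_mem_nhdsWithin] with τ hτ
  have hτ' : (τ:ℂ) ≠ 0 := by exact_mod_cast (ne_of_gt hτ)
  rw [hw2]
  field_simp

theorem q_lim : Tendsto (fun τ : ℝ => (∑' m : ℕ, tt τ m / ((m : ℂ) + 1)) / (τ:ℂ))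
    (𝓝[>] 0) (𝓝 (-(1/2) * I)) := by
  have hev : ∀ᶠ τ : ℝ in 𝓝[>] 0, 0 < τ ∧ τ ≤ 1/2 := by
    have h1 : ∀ᶠ τ : ℝ in 𝓝[>] 0, 0 < τ := self_mem_nhdsWithin
    have h2 : ∀ᶠ τ : ℝ in 𝓝[>] 0, τ < 1/2 :=
      mem_nhdsWithin_of_mem_nhds (Iio_mem_nhds (by norm_num))
    filter_upwards [h1, h2] with τ a b using ⟨a, b.le⟩
  have hD := tendsto_tsum_of_dominated_convergence
    (f := fun (τ : ℝ) (n : ℕ) => tt τ (n + 2) / (((n + 2 : ℕ) : ℂ) + 1) / (τ:ℂ))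
    (g := fun n : ℕ => (((1:ℝ) / (((n:ℝ) + 1) * ((n : ℝ) + 2)) : ℝ) * I : ℂ))
    (bound := fun n : ℕ => 8 * (1 / (((n:ℝ) + 2) * ((n : ℝ) + 3))))
    (𝓕 := 𝓝[>] (0:ℝ)) (summable_aux.mul_left _) (fun n => tt_lim n) (by
      filter_upwards [hev] with τ hτ n
      have h1 := term_bound hτ.1.le hτ.2 n
      rw [norm_div]
      have h2 : ‖(τ:ℂ)‖ = τ := by rw [norm_real, Real.norm_eq_abs, abs_of_pos hτ.1]
      rw [h2, div_le_iff₀ hτ.1]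
      refine h1.trans (le_of_eq ?_)
      ring)
  have hsum : ∑' n : ℕ, (((1:ℝ) / (((n:ℝ) + 1) * ((n : ℝ) + 2)) : ℝ) * I : ℂ) = I := by
    have := (Complex.hasSum_ofReal.mpr hasSum_one).mul_right I
    rw [this.tsum_eq]; simp
  rw [hsum] at hD
  have hfirst : Tendsto (fun τ : ℝ => (τ:ℂ) - (3/2) * I + (τ:ℂ)^2 * I / 2) (𝓝[>] 0)
      (𝓝 (((0:ℝ):ℂ) - (3/2) * I + ((0:ℝ):ℂ)^2 * I / 2)) := by
    have hc : Continuous (fun τ : ℝ => (τ:ℂ) - (3/2) * I + (τ:ℂ)^2 * I / 2) := by fun_prop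
    exact (hc.tendsto 0).mono_left nhdsWithin_le_nhds
  have h3 := hfirst.add hD
  have e1 : (((0:ℝ):ℂ) - (3/2) * I + ((0:ℝ):ℂ)^2 * I / 2) + I = -(1/2) * I := by push_cast; ring
  rw [e1] at h3
  refine h3.congr' ?_
  filter_upwards [hev] with τ hτ
  have hτ' : (τ:ℂ) ≠ 0 := by exact_mod_cast (ne_of_gt hτ.1)
  have hs := summable_q hτ.1.le hτ.2
  rw [← hs.sum_add_tsum_nat_add 2, add_div, ← tsum_div_const]
  congr 1
  rw [Finset.sum_range_succ, Finset.sum_range_one, tt_zero, tt_one]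
  push_cast
  have := I_sq
  field_simp
  ring_nf
  rw [this]
  ring

/-- The pairing is unbounded. -/
theorem exists_large (R : ℝ) : ∃ τ : ℝ, 0 < τ ∧ τ ≤ 1/2 ∧ ∃ r : ℝ, 0 < r ∧ r < 1 ∧
    R < ‖(∑' n : ℕ, tt τ n * (r : ℂ) ^ n) - 1‖ := by
  -- limit value
  have hlim : ∀ τ : ℝ, 0 < τ → τ ≤ 1/2 → Tendsto (fun M => ∑ m ∈ Finset.range M, tt τ m) atTop
      (𝓝 (((τ:ℂ)^2 + (2 - (τ:ℂ)^2 + τ * I) * (-(1 + τ * I))) *
        (∑' m : ℕ, tt τ m / ((m : ℂ) + 1)) / (τ:ℂ)^2)) := by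
    intro τ h0 h1
    have hτ' : (τ:ℂ)^2 ≠ 0 := pow_ne_zero _ (by exact_mod_cast h0.ne')
    set K := ((τ:ℂ)^2 + (2 - (τ:ℂ)^2 + τ * I) * (-(1 + τ * I))) with hK
    have hq' := (summable_q h0.le h1).hasSum.tendsto_sum_nat
    have h2 := ((hq'.const_mul K).sub (XX_tendsto h0 h1)).div_const ((τ:ℂ)^2)
    rw [sub_zero] at h2
    refine h2.congr ?_
    intro M
    rw [telescope τ M, ← hK]
    have e9 : K * ∑ i ∈ Finset.range M, tt τ i / ((i:ℂ) + 1) -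
        (-(τ:ℂ)^2 * ∑ m ∈ Finset.range M, tt τ m + K * ∑ m ∈ Finset.range M, tt τ m / ((m:ℂ) + 1)) =
        (τ:ℂ)^2 * ∑ m ∈ Finset.range M, tt τ m := by ring
    rw [e9, mul_div_cancel_left₀ _ hτ']
  have hev : ∀ᶠ τ : ℝ in 𝓝[>] 0, 0 < τ ∧ τ ≤ 1/2 := by
    have h1 : ∀ᶠ τ : ℝ in 𝓝[>] 0, 0 < τ := self_mem_nhdsWithin
    have h2 : ∀ᶠ τ : ℝ in 𝓝[>] 0, τ < 1/2 :=
      mem_nhdsWithin_of_mem_nhds (Iio_mem_nhds (by norm_num))
    filter_upwards [h1, h2] with τ a b using ⟨a, b.le⟩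
  have hKlim : Tendsto (fun τ : ℝ => ((τ:ℂ)^2 + (2 - (τ:ℂ)^2 + τ * I) * (-(1 + τ * I)))) (𝓝[>] 0)
      (𝓝 (-2)) := by
    have hc : Continuous (fun τ : ℝ => ((τ:ℂ)^2 + (2 - (τ:ℂ)^2 + τ * I) * (-(1 + τ * I)))) := by fun_prop
    have := (hc.tendsto 0).mono_left (nhdsWithin_le_nhds (s := Ioi (0:ℝ)))
    have e : (((0:ℝ):ℂ)^2 + (2 - ((0:ℝ):ℂ)^2 + ((0:ℝ):ℂ) * I) * (-(1 + ((0:ℝ):ℂ) * I))) = -2 := by
      push_cast; ring
    rw [e] at this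
    exact this
  have hprod := (hKlim.mul q_lim).norm
  have e2 : ‖(-2:ℂ) * (-(1/2) * I)‖ = 1 := by
    have : (-2:ℂ) * (-(1/2) * I) = I := by ring
    rw [this, norm_I]
  rw [e2] at hprod
  have hbig : ∀ᶠ τ : ℝ in 𝓝[>] 0, (1/2:ℝ) < ‖((τ:ℂ)^2 + (2 - (τ:ℂ)^2 + τ * I) * (-(1 + τ * I))) *
      ((∑' m : ℕ, tt τ m / ((m : ℂ) + 1)) / (τ:ℂ))‖ := hprod.eventually (lt_mem_nhds (by norm_num))
  have hsmall : ∀ᶠ τ : ℝ in 𝓝[>] 0, (|R| + 1) * (2 * τ) < 1 := by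
    have hc : Continuous (fun τ : ℝ => (|R| + 1) * (2 * τ)) := by fun_prop
    have := (hc.tendsto 0).mono_left (nhdsWithin_le_nhds (s := Ioi (0:ℝ)))
    refine this.eventually (gt_mem_nhds ?_)
    simp
  obtain ⟨τ, ⟨h0, h1⟩, hb, hs⟩ := (hev.and (hbig.and hsmall)).exists
  refine ⟨τ, h0, h1, ?_⟩
  set l := (((τ:ℂ)^2 + (2 - (τ:ℂ)^2 + τ * I) * (-(1 + τ * I))) *
        (∑' m : ℕ, tt τ m / ((m : ℂ) + 1)) / (τ:ℂ)^2) with hl
  have hτ' : (τ:ℂ) ≠ 0 := by exact_mod_cast h0.ne'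
  have hnl : R < ‖l - 1‖ := by
    have e3 : l = (((τ:ℂ)^2 + (2 - (τ:ℂ)^2 + τ * I) * (-(1 + τ * I))) *
      ((∑' m : ℕ, tt τ m / ((m : ℂ) + 1)) / (τ:ℂ))) / (τ:ℂ) := by
      rw [hl]; field_simp
    have h2 : ‖(τ:ℂ)‖ = τ := by rw [norm_real, Real.norm_eq_abs, abs_of_pos h0]
    have h3 : (1/2) / τ < ‖l‖ := by
      rw [e3, norm_div, h2]
      exact (div_lt_div_iff_of_pos_right h0).mpr hb
    have h4 : |R| + 1 < (1/2) / τ := by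
      rw [lt_div_iff₀ h0]; linarith
    have h5 := norm_sub_norm_le l 1
    rw [norm_one] at h5
    have h6 := le_abs_self R
    linarith
  have g1 := Complex.tendsto_tsum_powerSeries_nhdsWithin_lt (hlim τ h0 h1)
  rw [tendsto_map'_iff] at g1
  have g2 : Tendsto (fun r : ℝ => ‖(∑' n : ℕ, tt τ n * (r : ℂ) ^ n) - 1‖) (𝓝[<] 1) (𝓝 ‖l - 1‖) :=
    (g1.sub_const 1).norm
  have g3 := g2.eventually (lt_mem_nhds hnl)
  have g4 : ∀ᶠ r : ℝ in 𝓝[<] 1, r < 1 := eventually_mem_nhdsWithin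
  have g5 : ∀ᶠ r : ℝ in 𝓝[<] 1, 0 < r := by
    apply mem_nhdsWithin_of_mem_nhds
    exact lt_mem_nhds zero_lt_one
  obtain ⟨r, hr1, hr2, hr3⟩ := (g3.and (g4.and g5)).exists
  exact ⟨r, hr3, hr2, hr1⟩

end Pool.Agent.R254
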